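import Pool.Agent.P8H73.KV.EbmD
import Pool.Agent.P8H73.GM.All
import Pool.Agent.P8H7.KV.Adm
import Pool.Agent.P8H7.KV.Fin
import Pool.Agent.P8H62.KV.Enu
import Pool.Agent.P8H62.KV.Bil
import Pool.Agent.P8H62.KV.Core
import Pool.Agent.P8H75.KV.Cpw
import Pool.Agent.P8H20.KV.Ea
import Pool.Agent.P8H20.KV.Qb
import Pool.Agent.P8H20.KV.Sep
import Pool.Agent.P8H20.KV.Xa
import Pool.Agent.P8H87.KV.Eea
import Pool.Agent.P8H88.KV.Eeb
import Pool.Agent.P8H88.KV.Gsl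
import Pool.Agent.P8H88.KV.Upi
import Pool.Agent.P8H78.KV.Form
import Pool.Agent.P8H78.KV.Spl
import Pool.Agent.P8H65.KV.Maj
import Pool.Agent.P8H65.KV.Sel
import Pool.Agent.P8H65.KV.Trv

/-! Project KV: assembly. -/

set_option autoImplicit false

namespace Pool.Agent.P8H73.KV

theorem core_ok : S_CORE :=
  Pool.Agent.P8H62.KV.core (Pool.Agent.P8H62.KV.bil (Pool.Agent.P8H62.KV.enu Pool.Agent.P8H75.KV.cpw))

theorem sel_ok : S_SEL := Pool.Agent.P8H65.KV.sel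

theorem adm_ok : S_ADM := Pool.Agent.P8H7.KV.adm

theorem trv_ok : S_TRV := Pool.Agent.P8H65.KV.trv sel_ok

theorem maj_ok : S_MAJ := Pool.Agent.P8H65.KV.maj sel_ok

theorem ea_ok : S_EA := Pool.Agent.P8H20.KV.ea core_ok sel_ok Pool.Agent.P8H20.KV.qb Pool.Agent.P8H20.KV.xa

theorem ebm_ok : S_EBM :=
  ebm core_ok sel_ok adm_ok Pool.Agent.P8H78.KV.form Pool.Agent.P8H20.KV.sep Pool.Agent.P8H20.KV.qb Pool.Agent.P8H20.KV.xb

theorem spl_ok : S_SPL := Pool.Agent.P8H78.KV.spl sel_ok adm_ok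

theorem gsl_ok : S_GSL := Pool.Agent.P8H88.KV.gsl Pool.Agent.P8H88.KV.upi

theorem eea_ok : S_EEA := Pool.Agent.P8H87.KV.eea trv_ok ea_ok adm_ok

theorem eeb_ok : S_EEB := Pool.Agent.P8H88.KV.eeb trv_ok spl_ok ebm_ok gsl_ok adm_ok

theorem fin_ok : S_FIN := Pool.Agent.P8H7.KV.fin eea_ok eeb_ok maj_ok Pool.Agent.P8H73.GM.fin_ok

theorem cor_ok : S_COR := Pool.Agent.P8H7.KV.cor fin_ok

end Pool.Agent.P8H73.KV
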