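import Pool.Agent.P8H73.KV.Stm
import Pool.Agent.P8H73.GM.Base

/-! Package EBM of project KV: bounds. -/

set_option autoImplicit false

namespace Pool.Agent.P8H73.KV

open Finset Pool.Agent.H376R2.MR Pool.Agent.H376R2.TT Pool.Agent.Y844.BT Pool.Agent.P8H73.GM

theorem moeb_abs (n : ℕ) : |(ArithmeticFunction.moebius n : ℝ)| ≤ 1 := by
  have h := ArithmeticFunction.abs_moebius_le_one (n := n)
  exact_mod_cast h

theorem psi_abs_le (k n : ℕ) : |psi k n| ≤ n * selwq_g k n := by
  unfold psi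
  rw [abs_mul, abs_mul, abs_of_nonneg (Nat.cast_nonneg (α := ℝ) n), abs_of_nonneg (selwq_g_nonneg k n)]
  calc |(ArithmeticFunction.moebius n : ℝ)| * n * selwq_g k n ≤ 1 * n * selwq_g k n := by
        have h1 := moeb_abs n
        have h2 := selwq_g_nonneg k n
        gcongr
    _ = _ := by ring

theorem psi_prime (k p : ℕ) (hp : p.Prime) : |psi k p| ≤ 2 := by
  refine (psi_abs_le k p).trans ?_
  unfold selwq_g
  split_ifs
  · unfold sw_g
    rw [if_pos hp.squarefree, Nat.totient_prime hp]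
    have h2 : (2 : ℝ) ≤ p := by exact_mod_cast hp.two_le
    rw [Nat.cast_sub hp.one_lt.le, Nat.cast_one, mul_one_div, div_le_iff₀ (by linarith)]
    linarith
  · rw [mul_zero]; norm_num

theorem psi_abs_G (k n : ℕ) (hn : 1 ≤ n) : |psi k n| ≤ sw_G n := by
  refine (psi_abs_le k n).trans ?_
  unfold selwq_g
  split_ifs
  · by_cases hs : Squarefree n
    · have h1 := sw_sum hs
      have h0 : 0 < Nat.totient n := Nat.totient_pos.2 hn
      have h0' : (0 : ℝ) < Nat.totient n := by exact_mod_cast h0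
      have h2 : (n : ℝ) * sw_g n = ∑ k ∈ n.divisors, sw_g k := by
        unfold sw_g at h1 ⊢
        rw [if_pos hs, mul_one_div, div_eq_iff h0'.ne']
        linarith
      rw [h2]
      unfold sw_G
      apply sum_le_sum_of_subset_of_nonneg
      · intro d hd
        rw [mem_Icc]
        exact ⟨Nat.pos_of_mem_divisors hd, Nat.divisor_le hd⟩
      · intro i _ _
        exact sw_g_nonneg i
    · unfold sw_g
      rw [if_neg hs, mul_zero]
      exact (sw_G_pos hn).le
  · rw [mul_zero]; exact (sw_G_pos hn).le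

theorem sw_G_mono {a b : ℕ} (h : a ≤ b) : sw_G a ≤ sw_G b := by
  unfold sw_G
  apply sum_le_sum_of_subset_of_nonneg
  · intro i hi
    rw [mem_Icc] at hi ⊢
    omega
  · intro i _ _
    exact sw_g_nonneg i

theorem GS_ge_one (S : Finset ℕ) (h : 1 ∈ S) : 1 ≤ GS S := by
  have h1 : sw_g 1 ≤ GS S := Finset.single_le_sum (f := sw_g) (fun i _ => sw_g_nonneg i) h
  rwa [sw_g_one] at h1

/-- the number of the members of a set of primes `> P0` which divide `m` -/
theorem card_primes (B : Finset ℕ) (P0 Z : ℝ) (hP0 : 1 < P0) (hB : ∀ p ∈ B, p.Prime ∧ P0 < (p : ℝ)) (m : ℕ) (hm : 1 ≤ m)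
    (hZ : (m : ℝ) ≤ Z) : ((B.filter (fun p => p ∣ m)).card : ℝ) * Real.log P0 ≤ Real.log Z := by
  have h1 : (∏ p ∈ B.filter (fun p => p ∣ m), p) ∣ m := by
    apply Finset.prod_primes_dvd
    · intro p hp
      exact (hB p (mem_filter.1 hp).1).1.prime
    · intro p hp
      exact (mem_filter.1 hp).2
  have h2 := Nat.le_of_dvd hm h1
  have h3 : P0 ^ (B.filter (fun p => p ∣ m)).card ≤ ((∏ p ∈ B.filter (fun p => p ∣ m), p : ℕ) : ℝ) := by
    rw [Nat.cast_prod, ← Finset.prod_const]
    apply Finset.prod_le_prod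
    · intro i _; linarith
    · intro p hp
      exact (hB p (mem_filter.1 hp).1).2.le
  have h4 : P0 ^ (B.filter (fun p => p ∣ m)).card ≤ Z := by
    refine h3.trans (le_trans ?_ hZ)
    exact_mod_cast h2
  have h5 := Real.log_le_log (by positivity) h4
  rwa [Real.log_pow] at h5

end Pool.Agent.P8H73.KV
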