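import Pool.Agent.P8H73.KV.EbmA

/-! Package EBM of project KV: the identity. -/

set_option autoImplicit false

namespace Pool.Agent.P8H73.KV

open Finset Pool.Agent.H376R2.MR Pool.Agent.H376R2.TT Pool.Agent.Y844.BT Pool.Agent.P8H73.GM

/-- the first variable -/
noncomputable def Sp (k : ℕ) (R Y P0 P1 : ℝ) (g : ℕ) : Finset ℕ :=
  (SS k R Y P0 P1).filter (fun m : ℕ => Y < (m : ℝ) ∧ (g : ℝ) * m ≤ R)

open Classical in
/-- the primes of the block prime to `k` -/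
noncomputable def Bp (k : ℕ) (P0 P1 : ℝ) (i : ℕ) : Finset ℕ :=
  ((Ico (2 ^ i) (2 ^ (i + 1))).filter (fun p : ℕ => p.Prime ∧ P0 < (p : ℝ) ∧ (p : ℝ) ≤ P1)).filter
    (fun p => Nat.Coprime p k)

/-- the second variable -/
noncomputable def Np (k : ℕ) (R Y : ℝ) (g i : ℕ) : Finset ℕ :=
  (Icc 1 ⌊R⌋₊).filter (fun n : ℕ => (Y < 2 ^ i * (n : ℝ) ∧ (g : ℝ) * (2 ^ i * n) ≤ R) ∧ Nat.Coprime n k)

open Classical in
theorem mem_SS {k : ℕ} {R Y P0 P1 : ℝ} {m : ℕ} (h : m ∈ SS k R Y P0 P1) :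
    1 ≤ m ∧ (m : ℝ) ≤ R ∧ Squarefree m ∧ Nat.Coprime m k := by
  unfold SS at h
  rw [mem_filter, mem_Icc] at h
  refine ⟨h.1.1, ?_, h.2.1, h.2.2.1⟩
  have h1 : 0 < ⌊R⌋₊ := lt_of_lt_of_le h.1.1 h.1.2
  exact (Nat.le_floor_iff (Nat.pos_of_floor_pos h1).le).1 h.1.2

/-- only the small members matter -/
theorem Mi_eq (k : ℕ) (l c : ℤ) (L Δ : ℕ) (R Y P0 P1 : ℝ) (g i : ℕ)
    (hz : ∀ d, d ∉ SS k R Y P0 P1 → lam (SS k R Y P0 P1) d = 0) :
    Mi k l c L Δ R Y P0 P1 g i =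
      ∑ m ∈ Sp k R Y P0 P1 g, ∑ p ∈ Bp k P0 P1 i, ∑ n ∈ Np k R Y g i,
        (if Nat.Coprime m p ∧ Nat.Coprime (m * p) n then 1 else 0) *
          (lam (SS k R Y P0 P1) (g * m) * (lam (SS k R Y P0 P1) (g * (p * n)) / (1 + nu P0 P1 n)) *
            RR k l c L Δ (g * (m * p * n))) := by
  classical
  unfold Mi
  symm
  have hS : Sp k R Y P0 P1 g ⊆ (SS k R Y P0 P1).filter (fun m : ℕ => Y < (m : ℝ)) := by
    intro m hm
    unfold Sp at hm
    rw [mem_filter] at hm ⊢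
    exact ⟨hm.1, hm.2.1⟩
  rw [← Finset.sum_subset hS]
  · apply sum_congr rfl
    intro m hm
    have hB : Bp k P0 P1 i ⊆ (Ico (2 ^ i) (2 ^ (i + 1))).filter (fun p : ℕ => p.Prime ∧ P0 < (p : ℝ) ∧ (p : ℝ) ≤ P1) := by
      intro p hp
      unfold Bp at hp
      exact (mem_filter.1 hp).1
    rw [← Finset.sum_subset hB]
    · apply sum_congr rfl
      intro p hp
      have hN : Np k R Y g i ⊆ (Icc 1 ⌊R⌋₊).filter (fun n : ℕ => Y < 2 ^ i * (n : ℝ)) := by
        intro n hn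
        unfold Np at hn
        rw [mem_filter] at hn ⊢
        exact ⟨hn.1, hn.2.1.1⟩
      apply Finset.sum_subset hN
      intro n hn hn2
      have h0 : lam (SS k R Y P0 P1) (g * (p * n)) = 0 := by
        apply hz
        intro h
        apply hn2
        obtain ⟨h1, h2, h3, h4⟩ := mem_SS h
        unfold Np
        rw [mem_filter] at hn ⊢
        refine ⟨hn.1, ⟨hn.2, ?_⟩, ?_⟩
        · refine le_trans ?_ h2
          push_cast
          have h5 : (2 : ℝ) ^ i ≤ p := by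
            unfold Bp at hp
            have := (mem_Ico.1 (mem_filter.1 (mem_filter.1 hp).1).1).1
            exact_mod_cast this
          gcongr
        · exact Nat.Coprime.coprime_dvd_left (Dvd.intro_left (g * p) (by ring)) h4
      rw [h0]
      ring
    · intro p hp hp2
      apply sum_eq_zero
      intro n hn
      have h0 : lam (SS k R Y P0 P1) (g * (p * n)) = 0 := by
        apply hz
        intro h
        apply hp2
        obtain ⟨h1, h2, h3, h4⟩ := mem_SS h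
        unfold Bp
        rw [mem_filter]
        refine ⟨hp, ?_⟩
        exact Nat.Coprime.coprime_dvd_left (Dvd.intro_left (g * n) (by ring)) h4
      rw [h0]
      ring
  · intro m hm hm2
    apply sum_eq_zero
    intro p hp
    apply sum_eq_zero
    intro n hn
    have h0 : lam (SS k R Y P0 P1) (g * m) = 0 := by
      apply hz
      intro h
      apply hm2
      obtain ⟨h1, h2, h3, h4⟩ := mem_SS h
      unfold Sp
      rw [mem_filter] at hm ⊢
      refine ⟨hm.1, hm.2, ?_⟩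
      exact_mod_cast h2
    rw [h0]
    ring

/-- the coefficients of the product of the first variable and the prime -/
noncomputable def al (S' B' : Finset ℕ) (lm u : ℕ → ℝ) (m' : ℕ) : ℝ :=
  ∑ q ∈ (S' ×ˢ B').filter (fun q => q.1 * q.2 = m'), (if Nat.Coprime q.1 q.2 then lm q.1 * u q.2 else 0)

theorem regroup (S' B' N' 𝓜 : Finset ℕ) (lm u v rr : ℕ → ℝ) (hM : ∀ m ∈ S', ∀ p ∈ B', m * p ∈ 𝓜) :
    ∑ m ∈ S', ∑ p ∈ B', ∑ n ∈ N', (if Nat.Coprime m p ∧ Nat.Coprime (m * p) n then 1 else 0) *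
      (lm m * (u p * v n) * rr (m * p * n)) =
    ∑ m' ∈ 𝓜, ∑ n ∈ N', (if Nat.Coprime m' n then 1 else 0) * (al S' B' lm u m' * v n * rr (m' * n)) := by
  classical
  have h1 : ∑ m ∈ S', ∑ p ∈ B', ∑ n ∈ N', (if Nat.Coprime m p ∧ Nat.Coprime (m * p) n then 1 else 0) *
      (lm m * (u p * v n) * rr (m * p * n)) = ∑ q ∈ S' ×ˢ B', ∑ n ∈ N',
        (if Nat.Coprime q.1 q.2 ∧ Nat.Coprime (q.1 * q.2) n then 1 else 0) *
      (lm q.1 * (u q.2 * v n) * rr (q.1 * q.2 * n)) := by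
    rw [sum_product]
  rw [h1, ← Finset.sum_fiberwise_of_maps_to (g := fun q : ℕ × ℕ => q.1 * q.2) (t := 𝓜)]
  · apply sum_congr rfl
    intro m' _
    rw [sum_comm]
    apply sum_congr rfl
    intro n _
    unfold al
    rw [sum_mul, sum_mul, mul_sum]
    apply sum_congr rfl
    intro q hq
    rw [mem_filter] at hq
    rw [← hq.2]
    by_cases h2 : Nat.Coprime q.1 q.2
    · by_cases h3 : Nat.Coprime (q.1 * q.2) n
      · rw [if_pos ⟨h2, h3⟩, if_pos h3, if_pos h2]; ring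
      · rw [if_neg (fun h => h3 h.2), if_neg h3]; ring
    · rw [if_neg (fun h => h2 h.1), if_neg h2]; ring
  · intro q hq
    rw [mem_product] at hq
    exact hM _ hq.1 _ hq.2

theorem swap_sums (S' B' N' E : Finset ℕ) (J : ℕ) (A : ℕ → ℕ → ℕ → ℝ) (cf : ℕ → ℕ → ℝ) (u v : ℕ → ℕ → ℕ → ℝ) :
    ∑ m ∈ S', ∑ p ∈ B', ∑ n ∈ N', A m p n * ∑ e ∈ E, ∑ j ∈ range J, cf e j * (u e j p * v e j n) =
    ∑ e ∈ E, ∑ j ∈ range J, cf e j * ∑ m ∈ S', ∑ p ∈ B', ∑ n ∈ N', A m p n * (u e j p * v e j n) := by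
  have h1 : ∀ (F : ℕ → ℕ → ℕ → ℝ), ∑ m ∈ S', ∑ p ∈ B', ∑ n ∈ N', F m p n =
      ∑ z ∈ S' ×ˢ (B' ×ˢ N'), F z.1 z.2.1 z.2.2 := by
    intro F
    rw [sum_product]
    apply sum_congr rfl
    intro m _
    rw [sum_product]
  have h2 : ∀ (F : ℕ → ℕ → ℝ), ∑ e ∈ E, ∑ j ∈ range J, F e j = ∑ w ∈ E ×ˢ range J, F w.1 w.2 := by
    intro F
    rw [sum_product]
  rw [h1, h2]
  simp only [h1, h2, mul_sum]
  rw [sum_comm]
  apply sum_congr rfl
  intro w _
  apply sum_congr rfl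
  intro z _
  ring

end Pool.Agent.P8H73.KV
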