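import Pool.Agent.P8H73.KV.EbmB

/-! Package EBM of project KV: the bounds for the coefficients. -/

set_option autoImplicit false

namespace Pool.Agent.P8H73.KV

open Finset Pool.Agent.H376R2.MR Pool.Agent.H376R2.TT Pool.Agent.Y844.BT Pool.Agent.P8H73.GM

theorem mem_Bp {k : ℕ} {P0 P1 : ℝ} {i p : ℕ} (h : p ∈ Bp k P0 P1 i) :
    p.Prime ∧ P0 < (p : ℝ) ∧ (p : ℝ) ≤ P1 ∧ 2 ^ i ≤ p ∧ p < 2 ^ (i + 1) ∧ Nat.Coprime p k := by
  unfold Bp at h
  rw [mem_filter, mem_filter, mem_Ico] at h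
  exact ⟨h.1.2.1, h.1.2.2.1, h.1.2.2.2, h.1.1.1, h.1.1.2, h.2⟩

theorem al_bound (k g i : ℕ) (R Y P0 P1 D : ℝ) (lm u : ℕ → ℝ) (hR : 1 ≤ R) (hP0 : 1 < P0) (hP1 : P1 ≤ R)
    (hlm : ∀ m, |lm m| ≤ 1) (hu : ∀ p ∈ Bp k P0 P1 i, |u p| ≤ 2) (hD : 2 * Real.log R ≤ D * Real.log P0) (m' : ℕ) :
    |al (Sp k R Y P0 P1 g) (Bp k P0 P1 i) lm u m'| ≤ 2 * D := by
  classical
  have hlR : 0 ≤ Real.log R := Real.log_nonneg hR
  have hlP : 0 < Real.log P0 := Real.log_pos hP0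
  have hD0 : 0 ≤ D := by
    by_contra h
    push Not at h
    nlinarith
  unfold al
  set F := ((Sp k R Y P0 P1 g) ×ˢ (Bp k P0 P1 i)).filter (fun q => q.1 * q.2 = m') with hF
  have h1 : |∑ q ∈ F, (if Nat.Coprime q.1 q.2 then lm q.1 * u q.2 else 0)| ≤ ∑ q ∈ F, (2 : ℝ) := by
    refine (abs_sum_le_sum_abs _ _).trans (sum_le_sum ?_)
    intro q hq
    rw [hF, mem_filter, mem_product] at hq
    split_ifs
    · rw [abs_mul]
      calc |lm q.1| * |u q.2| ≤ 1 * 2 := mul_le_mul (hlm _) (hu _ hq.1.2) (abs_nonneg _) (by norm_num)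
        _ = 2 := by norm_num
    · rw [abs_zero]; norm_num
  refine h1.trans ?_
  rw [sum_const, nsmul_eq_mul]
  rcases F.eq_empty_or_nonempty with h0 | ⟨q0, hq0⟩
  · rw [h0, card_empty]
    push_cast
    linarith
  · have hm1 : 1 ≤ m' ∧ (m' : ℝ) ≤ R * R := by
      rw [hF, mem_filter, mem_product] at hq0
      obtain ⟨⟨h2, h3⟩, h4⟩ := hq0
      unfold Sp at h2
      have h5 := mem_SS (mem_filter.1 h2).1
      have h6 := mem_Bp h3
      rw [← h4]
      refine ⟨Nat.mul_pos h5.1 h6.1.pos, ?_⟩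
      push_cast
      exact mul_le_mul h5.2.1 (h6.2.2.1.trans hP1) (Nat.cast_nonneg _) (by linarith)
    have h2 : F.card ≤ ((Bp k P0 P1 i).filter (fun p => p ∣ m')).card := by
      apply card_le_card_of_injOn (fun q => q.2)
      · intro q hq
        rw [mem_coe, hF, mem_filter, mem_product] at hq
        rw [mem_coe, mem_filter]
        exact ⟨hq.1.2, Dvd.intro_left _ hq.2⟩
      · intro q hq q' hq' hqq
        rw [mem_coe, hF, mem_filter, mem_product] at hq hq'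
        simp only at hqq
        have h3 := mem_Bp hq.1.2
        have h4 : q.1 * q.2 = q'.1 * q.2 := by
          rw [hq.2]
          conv_rhs => rw [hqq]
          exact hq'.2.symm
        have h5 := Nat.eq_of_mul_eq_mul_right h3.1.pos h4
        exact Prod.ext h5 hqq
    have h3 := card_primes (Bp k P0 P1 i) P0 (R * R) hP0 (fun p hp => ⟨(mem_Bp hp).1, (mem_Bp hp).2.1⟩) m' hm1.1 hm1.2
    have h4 : Real.log (R * R) = 2 * Real.log R := by
      rw [Real.log_mul (by linarith) (by linarith)]; ring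
    rw [h4] at h3
    have h5 : ((Bp k P0 P1 i).filter (fun p => p ∣ m')).card ≤ D := by
      have h6 := h3.trans hD
      exact le_of_mul_le_mul_right h6 hlP
    have h6 : (F.card : ℝ) ≤ D := le_trans (by exact_mod_cast h2) h5
    linarith

/-- the coefficients of the second variable -/
noncomputable def vv (k g : ℕ) (R P0 P1 : ℝ) (e : ℕ) (gj : ℕ → ℝ) (n : ℕ) : ℝ :=
  (if Nat.Coprime g e then psi k g else 0) * (if Nat.Coprime n (g * e) then psi k n else 0) *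
    gj ⌊R / (g * n * e)⌋₊ / (1 + nu P0 P1 n)

theorem vv_bound (k g : ℕ) (R P0 P1 W : ℝ) (e : ℕ) (gj : ℕ → ℝ) (n : ℕ) (hg : 1 ≤ g) (hn : 1 ≤ n)
    (hgR : (g : ℝ) ≤ R) (hnR : (n : ℝ) ≤ R) (hgj : ∀ r, |gj r| ≤ 1) (hW : sw_G ⌊R⌋₊ ≤ W) :
    |vv k g R P0 P1 e gj n| ≤ W ^ 2 := by
  unfold vv
  have h1 : ∀ a : ℕ, 1 ≤ a → (a : ℝ) ≤ R → |psi k a| ≤ W := fun a ha haR =>
    (psi_abs_G k a ha).trans ((sw_G_mono (Nat.le_floor haR)).trans hW)
  have hW0 : 0 ≤ W := (abs_nonneg _).trans (h1 g hg hgR)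
  have h2 : |(if Nat.Coprime g e then psi k g else 0)| ≤ W := by
    split_ifs
    · exact h1 g hg hgR
    · rw [abs_zero]; exact hW0
  have h3 : |(if Nat.Coprime n (g * e) then psi k n else 0)| ≤ W := by
    split_ifs
    · exact h1 n hn hnR
    · rw [abs_zero]; exact hW0
  have h4 : (1 : ℝ) ≤ 1 + nu P0 P1 n := by
    have : (0 : ℝ) ≤ nu P0 P1 n := Nat.cast_nonneg _
    linarith
  rw [abs_div, abs_mul, abs_mul, abs_of_pos (by linarith : (0 : ℝ) < 1 + nu P0 P1 n)]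
  refine (div_le_self (by positivity) h4).trans ?_
  calc _ ≤ W * W * 1 := by
        apply mul_le_mul _ (hgj _) (abs_nonneg _) (by positivity)
        exact mul_le_mul h2 h3 (abs_nonneg _) hW0
    _ = W ^ 2 := by ring

/-- the expansion of `Mi` -/
theorem Mi_expand (hform : S_FORM) (k : ℕ) (l c : ℤ) (L Δ : ℕ) (R Y P0 P1 : ℝ) (g i : ℕ) (hk : 1 ≤ k) (hR : 1 ≤ R)
    (hg : 1 ≤ g) (hgP : (g : ℝ) ≤ P0) (hP1 : P1 ≤ R)
    (hz : ∀ d, d ∉ SS k R Y P0 P1 → lam (SS k R Y P0 P1) d = 0)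
    (J : ℕ) (w : ℕ → ℝ) (f gj : ℕ → ℕ → ℝ)
    (hsep : ∀ p r : ℕ, p ≤ ⌊R⌋₊ → r ≤ ⌊R⌋₊ → (if p ≤ r then (1 : ℝ) else 0) = ∑ j ∈ range J, w j * (f j p * gj j r))
    (𝓜 : Finset ℕ) (hM : ∀ m ∈ Sp k R Y P0 P1 g, ∀ p ∈ Bp k P0 P1 i, m * p ∈ 𝓜) :
    Mi k l c L Δ R Y P0 P1 g i = (∑ e ∈ Icc 1 ⌊R⌋₊, ∑ j ∈ range J, selwq_g k e * w j *
      ∑ m' ∈ 𝓜, ∑ n ∈ Np k R Y g i, (if Nat.Coprime m' n then 1 else 0) *
        (al (Sp k R Y P0 P1 g) (Bp k P0 P1 i) (fun m => lam (SS k R Y P0 P1) (g * m))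
            (fun p => (if Nat.Coprime p e then psi k p else 0) * f j p) m' *
          vv k g R P0 P1 e (gj j) n * RR k l c L Δ (g * (m' * n)))) / GS (SS k R Y P0 P1) := by
  classical
  rw [Mi_eq k l c L Δ R Y P0 P1 g i hz]
  set G := GS (SS k R Y P0 P1) with hG
  have h1 : ∀ m ∈ Sp k R Y P0 P1 g, ∀ p ∈ Bp k P0 P1 i, ∀ n ∈ Np k R Y g i,
      (if Nat.Coprime m p ∧ Nat.Coprime (m * p) n then (1 : ℝ) else 0) *
          (lam (SS k R Y P0 P1) (g * m) * (lam (SS k R Y P0 P1) (g * (p * n)) / (1 + nu P0 P1 n)) *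
            RR k l c L Δ (g * (m * p * n))) =
      ((if Nat.Coprime m p ∧ Nat.Coprime (m * p) n then (1 : ℝ) else 0) *
          (lam (SS k R Y P0 P1) (g * m) * RR k l c L Δ (g * (m * p * n))) / G) *
        ∑ e ∈ Icc 1 ⌊R⌋₊, ∑ j ∈ range J, (selwq_g k e * w j) *
          (((if Nat.Coprime p e then psi k p else 0) * f j p) * vv k g R P0 P1 e (gj j) n) := by
    intro m hm p hp n hn
    by_cases hc : Nat.Coprime m p ∧ Nat.Coprime (m * p) n
    · rw [if_pos hc]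
      obtain ⟨hp1, hp2, hp3, hp4, hp5, hp6⟩ := mem_Bp hp
      have hpn : ¬ p ∣ n := by
        intro h
        have h2 : Nat.Coprime p n := Nat.Coprime.coprime_dvd_left (Dvd.intro_left m rfl) hc.2
        exact hp1.one_lt.ne' (Nat.Coprime.eq_one_of_dvd h2 h)
      have hpg : ¬ p ∣ g := by
        intro h
        have h2 := Nat.le_of_dvd hg h
        have h3 : (p : ℝ) ≤ g := by exact_mod_cast h2
        linarith
      have hn1 : 1 ≤ n := by
        unfold Np at hn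
        exact (mem_Icc.1 (mem_filter.1 hn).1).1
      rw [hform k g p n R Y P0 P1 hk hR hg hn1 hp1 hp2 hp3 hpg hpn, ← hG]
      have hpR : p ≤ ⌊R⌋₊ := Nat.le_floor (hp3.trans hP1)
      have h4 : ∀ e ∈ Icc 1 ⌊R⌋₊, selwq_g k e * (if Nat.Coprime g e then psi k g else 0) *
          (if Nat.Coprime p e then psi k p else 0) * (if Nat.Coprime n (g * e) then psi k n else 0) *
          (if p ≤ ⌊R / (g * n * e)⌋₊ then 1 else 0) = (1 + (nu P0 P1 n : ℝ)) * ∑ j ∈ range J, (selwq_g k e * w j) *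
          (((if Nat.Coprime p e then psi k p else 0) * f j p) * vv k g R P0 P1 e (gj j) n) := by
        intro e he
        have he1 : 1 ≤ e := (mem_Icc.1 he).1
        have h5 : ⌊R / (g * n * e)⌋₊ ≤ ⌊R⌋₊ := by
          apply Nat.floor_le_floor
          apply div_le_self (by linarith)
          have : (1 : ℕ) ≤ g * n * e := Nat.mul_pos (Nat.mul_pos hg hn1) he1
          exact_mod_cast this
        rw [hsep p _ hpR h5, mul_sum, mul_sum]
        apply sum_congr rfl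
        intro j _
        unfold vv
        have h6 : (1 : ℝ) + nu P0 P1 n ≠ 0 := by positivity
        field_simp
      rw [sum_congr rfl h4, ← mul_sum]
      have h6 : (1 : ℝ) + nu P0 P1 n ≠ 0 := by positivity
      field_simp
    · rw [if_neg hc]; ring
  rw [sum_congr rfl fun m hm => sum_congr rfl fun p hp => sum_congr rfl fun n hn => h1 m hm p hp n hn]
  rw [swap_sums (Sp k R Y P0 P1 g) (Bp k P0 P1 i) (Np k R Y g i) (Icc 1 ⌊R⌋₊) J
    (fun m p n => (if Nat.Coprime m p ∧ Nat.Coprime (m * p) n then (1 : ℝ) else 0) *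
          (lam (SS k R Y P0 P1) (g * m) * RR k l c L Δ (g * (m * p * n))) / G)
    (fun e j => selwq_g k e * w j) (fun e j p => (if Nat.Coprime p e then psi k p else 0) * f j p)
    (fun e j n => vv k g R P0 P1 e (gj j) n)]
  rw [sum_div]
  apply sum_congr rfl
  intro e _
  rw [sum_div]
  apply sum_congr rfl
  intro j _
  rw [← regroup (Sp k R Y P0 P1 g) (Bp k P0 P1 i) (Np k R Y g i) 𝓜 (fun m => lam (SS k R Y P0 P1) (g * m))
    (fun p => (if Nat.Coprime p e then psi k p else 0) * f j p) (fun n => vv k g R P0 P1 e (gj j) n)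
    (fun t => RR k l c L Δ (g * t)) hM]
  rw [mul_div_assoc]
  congr 1
  rw [sum_div]
  apply sum_congr rfl
  intro m _
  rw [sum_div]
  apply sum_congr rfl
  intro p _
  rw [sum_div]
  apply sum_congr rfl
  intro n _
  ring

end Pool.Agent.P8H73.KV
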