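import Pool.Agent.P8H73.KV.EbmC

/-! Package EBM of project KV. -/

set_option autoImplicit false

namespace Pool.Agent.P8H73.KV

open Finset Pool.Agent.H376R2.MR Pool.Agent.H376R2.TT Pool.Agent.Y844.BT Pool.Agent.P8H73.GM

theorem log_three : (1 : ℝ) ≤ Real.log 3 := by
  have h1 : Real.exp 1 < 2.7182818286 := Real.exp_one_lt_d9
  have h2 := Real.log_le_log (Real.exp_pos 1) (by linarith : Real.exp 1 ≤ 3)
  rwa [Real.log_exp] at h2

theorem ebm : S_CORE → S_SEL → S_ADM → S_FORM → S_SEP → S_QB → S_XB → S_EBM := by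
  intro hcore hsel hadm hform hsep hqb hxb θ hθ hθ1
  obtain ⟨C₁, hC₁, core⟩ := hcore
  obtain ⟨C₂, hC₂, sep⟩ := hsep
  obtain ⟨C₃, hC₃, xb⟩ := hxb θ hθ hθ1
  obtain ⟨C₄, hC₄, swG⟩ := sw_G_upper
  set A₀ : ℝ := 4 / θ + (1 + C₄) ^ 2 with hA₀
  set K : ℝ := (1 + C₄) * C₂ * A₀ ^ 2 * 72 * (12 * C₁) ^ 20 with hK
  have hA₀1 : 1 ≤ A₀ := by
    rw [hA₀]
    have : 0 < 4 / θ := by positivity
    nlinarith
  have hK0 : 0 < K := by rw [hK]; positivity
  have hth : 0 < 2 / θ := by positivity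
  refine ⟨C₃ + 10 + 2 / θ + K, by linarith, ?_⟩
  intro s k l c L Δ g i R G0 Q hs hk hkQ hlk hΔ hg hgG hgk hR hG0 hC hQ1 hQ2 hcor
  have hR0 : (0 : ℝ) < R := by linarith
  have hR1 : (1 : ℝ) ≤ R := by linarith
  have hk0 : (0 : ℝ) < k := by exact_mod_cast hk
  have hQ0 : 0 < Q := lt_of_lt_of_le hk0 hkQ
  have hs1 : (1 : ℝ) ≤ s := by exact_mod_cast hs
  have hs0 : (0 : ℝ) < s := by linarith
  have hg1 : (1 : ℝ) ≤ g := by exact_mod_cast hg
  have hg0 : (0 : ℝ) < g := by linarith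
  have hG00 : (0 : ℝ) < G0 := by linarith
  have hΔ0 : (0 : ℝ) < Δ := by exact_mod_cast hΔ
  have hlG : 0 ≤ Real.log G0 := Real.log_nonneg hG0
  set ρ : ℝ := Real.log R with hρ
  have hρ1 : 1 ≤ ρ := log_three.trans (Real.log_le_log (by norm_num) hR)
  have hρ0 : 0 < ρ := by linarith
  have hslG : 0 ≤ s * (1 + Real.log G0) := by positivity
  have hc3 : C₃ * s * (1 + Real.log G0) ≤ ρ := by
    refine le_trans ?_ hC
    have : 0 ≤ (10 + 2 / θ + K) * (s * (1 + Real.log G0)) := by positivity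
    linarith
  have hc10 : 10 * (s * (1 + Real.log G0)) ≤ ρ := by
    refine le_trans ?_ hC
    have : 0 ≤ (C₃ + 2 / θ + K) * (s * (1 + Real.log G0)) := by positivity
    linarith
  have hcth : 2 / θ * (s * (1 + Real.log G0)) ≤ ρ := by
    refine le_trans ?_ hC
    have : 0 ≤ (C₃ + 10 + K) * (s * (1 + Real.log G0)) := by positivity
    linarith
  have hsρ : (s : ℝ) ≤ ρ := by
    have h1 : (s : ℝ) * 1 ≤ s * (1 + Real.log G0) := mul_le_mul_of_nonneg_left (by linarith) hs0.le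
    linarith
  have hGρ : 10 * Real.log G0 ≤ ρ := by
    have h1 : 1 * Real.log G0 ≤ s * (1 + Real.log G0) := by
      apply mul_le_mul hs1 (by linarith) hlG hs0.le
    linarith
  have hG0R : G0 ≤ R := by
    rw [← Real.log_le_log_iff hG00 hR0]
    linarith
  set P0 : ℝ := R ^ (θ / (s : ℝ)) with hP0
  set P1 : ℝ := R ^ (2 / (5 * (s : ℝ))) with hP1
  have hP00 : 0 < P0 := Real.rpow_pos_of_pos hR0 _
  have hlP0 : Real.log P0 = θ / s * ρ := by rw [hP0, Real.log_rpow hR0]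
  have hP10 : 0 < P1 := Real.rpow_pos_of_pos hR0 _
  have hlP1 : Real.log P1 = 2 / (5 * s) * ρ := by rw [hP1, Real.log_rpow hR0]
  have hP1R : P1 ≤ R := by
    rw [← Real.log_le_log_iff hP10 hR0, hlP1]
    have h1 : 2 / (5 * (s : ℝ)) ≤ 1 := by
      rw [div_le_one (by positivity)]; linarith
    calc 2 / (5 * (s : ℝ)) * ρ ≤ 1 * ρ := mul_le_mul_of_nonneg_right h1 hρ0.le
      _ = ρ := one_mul _
  have hG0P0' : Real.log G0 < Real.log P0 := by
    rw [hlP0]
    have h1 : 2 * (1 + Real.log G0) = θ / s * (2 / θ * (s * (1 + Real.log G0))) := by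
      field_simp
    have h2 : θ / s * (2 / θ * (s * (1 + Real.log G0))) ≤ θ / s * ρ :=
      mul_le_mul_of_nonneg_left hcth (by positivity)
    linarith
  have hG0P0 : G0 ≤ P0 := by
    rw [← Real.log_le_log_iff hG00 hP00]
    exact hG0P0'.le
  have hP01 : 1 < P0 := by
    have h1 : 0 < Real.log P0 := by linarith
    exact (Real.log_pos_iff hP00.le).1 h1
  set Y : ℝ := R / G0 with hY
  have hY0 : 0 < Y := by positivity
  have hYR : Y ≤ R := div_le_self hR0.le hG0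
  have hY1 : 1 ≤ Y := by rw [hY, le_div_iff₀ hG00, one_mul]; exact hG0R
  have hAdm : Adm (SS k R Y P0 P1) k R := by
    apply hadm k R Y P0 P1 hk hY1 hYR hP00
    rw [hY, mul_div_assoc', le_div_iff₀ hG00, mul_comm]
    exact mul_le_mul_of_nonneg_right hG0P0 hR0.le
  obtain ⟨hS1, hS2, hS3⟩ := hAdm
  obtain ⟨hl1, hlabs, hlz, -⟩ := hsel _ hS1 (fun m hm => (hS2 m hm).1) hS3
  have hGS := GS_ge_one _ hS1
  set E : ℝ := Real.exp (-(θ * ρ / (4 * s ^ 2))) with hE
  have hE0 : 0 < E := Real.exp_pos _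
  suffices hmain : |Mi k l c L Δ R Y P0 P1 g i| ≤ R ^ 4 / (g ^ 3 * Δ) * (K * ρ ^ 86 * (E + 1 / G0)) by
    refine hmain.trans ?_
    apply mul_le_mul_of_nonneg_left _ (by positivity)
    apply mul_le_mul_of_nonneg_right _ (by positivity)
    have hCc : 1 ≤ C₃ + 10 + 2 / θ + K := by linarith
    have hKC : K ≤ C₃ + 10 + 2 / θ + K := by linarith
    generalize C₃ + 10 + 2 / θ + K = Cc at hCc hKC ⊢
    calc K * ρ ^ 86 ≤ Cc * ρ ^ 86 := mul_le_mul_of_nonneg_right hKC (by positivity)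
      _ ≤ Cc ^ 100 * ρ ^ 100 := by
          apply mul_le_mul
          · exact le_self_pow₀ hCc (by norm_num)
          · exact pow_le_pow_right₀ hρ1 (by norm_num)
          · positivity
          · positivity
      _ = _ := by rw [mul_pow]
  rcases (Bp k P0 P1 i).eq_empty_or_nonempty with hB | ⟨p₀, hp₀⟩
  · rw [Mi_eq k l c L Δ R Y P0 P1 g i hlz, hB]
    simp only [sum_empty, sum_const_zero, abs_zero]
    positivity
  obtain ⟨hp1, hp2, hp3, hp4, hp5, hp6⟩ := mem_Bp hp₀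
  set P : ℝ := 2 ^ i with hP
  have hP1' : 1 ≤ P := one_le_pow₀ (by norm_num)
  have hPp : 0 < P := by linarith
  have hPle : P ≤ p₀ := by rw [hP]; exact_mod_cast hp4
  have hPgt : (p₀ : ℝ) < 2 * P := by
    rw [hP, ← pow_succ']
    exact_mod_cast hp5
  have hxb1 : θ / s * ρ ≤ Real.log (2 * P) := by
    rw [← hlP0]
    exact Real.log_le_log hP00 (by linarith)
  have hxb2 : Real.log P ≤ 2 / (5 * s) * ρ := by
    rw [← hlP1]
    exact Real.log_le_log hPp (by linarith)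
  -- separation
  have hX2 : 2 ≤ ⌊R⌋₊ := Nat.le_floor (by push_cast; linarith)
  obtain ⟨J, w, f, gj, hw0, hwJ, hf, hgj, hsepe⟩ := sep ⌊R⌋₊ hX2
  have hflR : ((⌊R⌋₊ : ℕ) : ℝ) ≤ R := Nat.floor_le hR0.le
  have hwJ' : ∑ j ∈ range J, w j ≤ C₂ * ρ := by
    refine hwJ.trans ?_
    apply mul_le_mul_of_nonneg_left _ (by linarith)
    exact Real.log_le_log (by exact_mod_cast (by omega : 0 < ⌊R⌋₊)) hflR
  -- the sets
  set 𝓜 : Finset ℕ := (Icc 1 ⌊2 * P * R / g⌋₊).filter (fun m : ℕ => R / G0 * P ≤ (m : ℝ) ∧ Nat.Coprime m k) with h𝓜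
  have hMnn : 0 ≤ 2 * P * R / g := by positivity
  have hMmem : ∀ m ∈ Sp k R Y P0 P1 g, ∀ p ∈ Bp k P0 P1 i, m * p ∈ 𝓜 := by
    intro m hm p hp
    obtain ⟨q1, q2, q3, q4, q5, q6⟩ := mem_Bp hp
    unfold Sp at hm
    rw [mem_filter] at hm
    obtain ⟨m1, m2, m3, m4⟩ := mem_SS hm.1
    have q4' : P ≤ p := by rw [hP]; exact_mod_cast q4
    have q5' : (p : ℝ) ≤ 2 * P := by
      rw [hP, ← pow_succ']
      exact_mod_cast q5.le
    rw [h𝓜, mem_filter, mem_Icc]
    refine ⟨⟨Nat.mul_pos m1 q1.pos, ?_⟩, ?_, Nat.Coprime.mul_left m4 q6⟩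
    · apply Nat.le_floor
      rw [le_div_iff₀ hg0]
      push_cast
      have h1 := hm.2.2
      calc (m : ℝ) * p * g = (g * m) * p := by ring
        _ ≤ R * (2 * P) := mul_le_mul h1 q5' (Nat.cast_nonneg _) hR0.le
        _ = 2 * P * R := by ring
    · push_cast
      exact mul_le_mul hm.2.1.le q4' hPp.le (Nat.cast_nonneg _)
  have hexp := Mi_expand hform k l c L Δ R Y P0 P1 g i hk hR1 hg (hgG.trans hG0P0) hP1R hlz J w f gj hsepe 𝓜 hMmem
  -- the constants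
  set W : ℝ := (1 + C₄) * ρ with hW
  have hswG : sw_G ⌊R⌋₊ ≤ W := by
    have h1 := swG ⌊R⌋₊ (by omega)
    have h2 : Real.log ⌊R⌋₊ ≤ ρ := Real.log_le_log (by exact_mod_cast (by omega : 0 < ⌊R⌋₊)) hflR
    rw [hW, add_mul, one_mul]
    have h3 : C₄ ≤ C₄ * ρ := le_mul_of_one_le_right hC₄.le hρ1
    linarith
  have hW0 : 0 < W := by positivity
  set A : ℝ := A₀ * ρ ^ 2 with hA
  have hA1 : 0 < A := by positivity
  have hρ2 : ρ ≤ ρ ^ 2 := le_self_pow₀ hρ1 (by norm_num)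
  have hρ21 : 1 ≤ ρ ^ 2 := one_le_pow₀ hρ1
  set D : ℝ := 2 * s / θ with hD
  have hal : ∀ (e j m' : ℕ), |al (Sp k R Y P0 P1 g) (Bp k P0 P1 i) (fun m => lam (SS k R Y P0 P1) (g * m))
            (fun p => (if Nat.Coprime p e then psi k p else 0) * f j p) m'| ≤ A := by
    intro e j m'
    refine (al_bound k g i R Y P0 P1 D _ _ hR1 hP01 hP1R (fun m => hlabs _) ?_ ?_ m').trans ?_
    · intro p hp
      rw [abs_mul]
      have h1 : |(if Nat.Coprime p e then psi k p else 0)| ≤ 2 := by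
        split_ifs
        · exact psi_prime k p (mem_Bp hp).1
        · rw [abs_zero]; norm_num
      calc _ ≤ 2 * 1 := mul_le_mul h1 (hf j p) (abs_nonneg _) (by norm_num)
        _ = 2 := by norm_num
    · rw [hlP0, hD]
      apply le_of_eq
      field_simp
      rw [hρ]
    · rw [hA, hA₀, hD]
      calc 2 * (2 * (s : ℝ) / θ) = 4 / θ * s := by ring
        _ ≤ 4 / θ * ρ ^ 2 := by
            apply mul_le_mul_of_nonneg_left (hsρ.trans hρ2) (by positivity)
        _ ≤ (4 / θ + (1 + C₄) ^ 2) * ρ ^ 2 := by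
            apply mul_le_mul_of_nonneg_right _ (by positivity)
            have h6 : 0 ≤ (1 + C₄) ^ 2 := by positivity
            linarith
  have hNR : ∀ n ∈ Np k R Y g i, 1 ≤ n ∧ (n : ℝ) ≤ R ∧ Y < P * n ∧ (g : ℝ) * (P * n) ≤ R ∧ Nat.Coprime n k := by
    intro n hn
    unfold Np at hn
    rw [mem_filter, mem_Icc] at hn
    exact ⟨hn.1.1, (Nat.le_floor_iff hR0.le).1 hn.1.2, hn.2.1.1, hn.2.1.2, hn.2.2⟩
  set Nn : ℝ := R / (g * P) with hNn
  set Mm' : ℝ := 2 * P * R / g with hMm'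
  have hNn0 : 0 < Nn := by positivity
  have hMm0 : 0 < Mm' := by positivity
  have hgPG : (g : ℝ) * P ≤ G0 * P1 := mul_le_mul hgG (hPle.trans hp3) hPp.le hG00.le
  have hGN : G0 ≤ Nn := by
    rw [hNn, le_div_iff₀ (by positivity)]
    calc G0 * (g * P) ≤ G0 * (G0 * P1) := mul_le_mul_of_nonneg_left hgPG hG00.le
      _ ≤ R := by
        rw [← Real.log_le_log_iff (by positivity) hR0, Real.log_mul hG00.ne' (by positivity),
          Real.log_mul hG00.ne' hP10.ne', hlP1]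
        have h1 : 2 / (5 * (s : ℝ)) * ρ ≤ 2 / 5 * ρ := by
          apply mul_le_mul_of_nonneg_right _ hρ0.le
          rw [div_le_div_iff₀ (by positivity) (by norm_num)]
          linarith
        linarith
  have hGM : G0 ≤ Mm' := by
    refine hGN.trans ?_
    rw [hNn, hMm', div_le_div_iff₀ (by positivity) hg0]
    have h1 : R * g ≤ R * g * (P * P) :=
      le_mul_of_one_le_right (by positivity) (one_le_mul_of_one_le_of_one_le hP1' hP1')
    have h2 : 0 ≤ R * g * (P * P) := by positivity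
    calc R * g ≤ R * g * (P * P) := h1
      _ ≤ 2 * (R * g * (P * P)) := by linarith
      _ = 2 * P * R * (g * P) := by ring
  have hNR' : Nn ≤ R := div_le_self hR0.le (one_le_mul_of_one_le_of_one_le hg1 hP1')
  have hMR' : Mm' ≤ R ^ 3 := by
    rw [hMm', div_le_iff₀ hg0]
    have h1 : 2 * P * R ≤ R * R * R := by
      have h2 : 2 * P ≤ R * R := mul_le_mul (by linarith) ((hPle.trans hp3).trans hP1R) hPp.le hR0.le
      exact mul_le_mul_of_nonneg_right h2 hR0.le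
    calc 2 * P * R ≤ R * R * R := h1
      _ = R ^ 3 * 1 := by ring
      _ ≤ R ^ 3 * g := mul_le_mul_of_nonneg_left hg1 (by positivity)
  have hlN : Real.log Nn ≤ ρ := Real.log_le_log hNn0 hNR'
  have hlN0 : 0 ≤ Real.log Nn := Real.log_nonneg (hG0.trans hGN)
  have hlM : Real.log Mm' ≤ 3 * ρ := by
    have h1 := Real.log_le_log hMm0 hMR'
    rw [Real.log_pow] at h1
    exact_mod_cast h1
  have hlM0 : 0 ≤ Real.log Mm' := Real.log_nonneg (hG0.trans hGM)
  have hbound0 : ∃ Λ E' : ℝ, 0 ≤ Λ ∧ 0 ≤ E' ∧ Λ ≤ (12 * C₁) ^ 20 * ρ ^ 80 ∧ E' ≤ E ∧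
      ∀ (e j : ℕ), |∑ m' ∈ 𝓜, ∑ n ∈ Np k R Y g i, (if Nat.Coprime m' n then 1 else 0) *
        (al (Sp k R Y P0 P1 g) (Bp k P0 P1 i) (fun m => lam (SS k R Y P0 P1) (g * m))
            (fun p => (if Nat.Coprime p e then psi k p else 0) * f j p) m' *
          vv k g R P0 P1 e (gj j) n * RR k l c L Δ (g * (m' * n)))| ≤
        A ^ 2 * g * (Mm' * Nn) ^ 2 / Δ * (16 * (Λ * E') + 18 / G0) := by
    refine ⟨(C₁ * (1 + ((s + 1 : ℕ) : ℝ) * Real.log Nn) * (1 + (s : ℝ) * Real.log Mm')) ^ 20,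
      Real.exp (-(θ * ρ) / (2 * ((s + 1 : ℕ) : ℝ) * s)), by positivity, (Real.exp_pos _).le, ?_, ?_, ?_⟩
    · have h1 : 1 + ((s + 1 : ℕ) : ℝ) * Real.log Nn ≤ 3 * ρ ^ 2 := by
        push_cast
        have h2 : ((s : ℝ) + 1) * Real.log Nn ≤ (2 * ρ) * ρ := mul_le_mul (by linarith) hlN hlN0 (by positivity)
        have h4 : (2 * ρ) * ρ = 2 * ρ ^ 2 := by ring
        rw [h4] at h2
        linarith
      have h2 : 1 + (s : ℝ) * Real.log Mm' ≤ 4 * ρ ^ 2 := by
        have h3 : (s : ℝ) * Real.log Mm' ≤ ρ * (3 * ρ) := mul_le_mul hsρ hlM hlM0 (by positivity)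
        have h4 : ρ * (3 * ρ) = 3 * ρ ^ 2 := by ring
        rw [h4] at h3
        linarith
      have h0 : 0 ≤ 1 + ((s + 1 : ℕ) : ℝ) * Real.log Nn := by positivity
      have h00 : 0 ≤ 1 + (s : ℝ) * Real.log Mm' := by positivity
      have h3 : C₁ * (1 + ((s + 1 : ℕ) : ℝ) * Real.log Nn) * (1 + (s : ℝ) * Real.log Mm') ≤ 12 * C₁ * ρ ^ 4 := by
        calc _ ≤ C₁ * (3 * ρ ^ 2) * (4 * ρ ^ 2) := by gcongr
          _ = _ := by ring
      calc _ ≤ (12 * C₁ * ρ ^ 4) ^ 20 := by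
            apply pow_le_pow_left₀ (by positivity) h3
        _ = _ := by ring
    · rw [hE]
      apply Real.exp_le_exp.2
      rw [neg_div, neg_le_neg_iff]
      apply div_le_div_of_nonneg_left (by positivity) (by positivity)
      push_cast
      have h4 : (s : ℝ) ≤ s ^ 2 := le_self_pow₀ hs1 (by norm_num)
      have h5 : 2 * ((s : ℝ) + 1) * s = 2 * s ^ 2 + 2 * s := by ring
      rw [h5]
      linarith
    intro e j
    set β : ℕ → ℝ := fun n => if n ∈ Np k R Y g i then vv k g R P0 P1 e (gj j) n else 0 with hβ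
    have h1 : ∑ m' ∈ 𝓜, ∑ n ∈ Np k R Y g i, (if Nat.Coprime m' n then 1 else 0) *
        (al (Sp k R Y P0 P1 g) (Bp k P0 P1 i) (fun m => lam (SS k R Y P0 P1) (g * m))
            (fun p => (if Nat.Coprime p e then psi k p else 0) * f j p) m' *
          vv k g R P0 P1 e (gj j) n * RR k l c L Δ (g * (m' * n))) =
        ∑ m' ∈ 𝓜, ∑ n ∈ Np k R Y g i, (if Nat.Coprime m' n then 1 else 0) *
        (al (Sp k R Y P0 P1 g) (Bp k P0 P1 i) (fun m => lam (SS k R Y P0 P1) (g * m))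
            (fun p => (if Nat.Coprime p e then psi k p else 0) * f j p) m' *
          β n * RR k l c L Δ (g * (m' * n))) := by
      apply sum_congr rfl
      intro m' _
      apply sum_congr rfl
      intro n hn
      simp only [hβ]
      rw [if_pos hn]
    rw [h1]
    apply core (s + 1) s (by omega) hs (by omega) (by omega) k l c L Δ g 𝓜 (Np k R Y g i) _ β A Mm' Nn (R / G0 * P)
      (R / G0 / P) G0 (Q / (16 * G0)) (4 * Q * G0 ^ 3) (θ * ρ) hk hlk hΔ hg hgk hA1 (hal e j)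
    · intro n
      simp only [hβ]
      split_ifs with hn
      · obtain ⟨n1, n2, n3, n4, n5⟩ := hNR n hn
        refine (vv_bound k g R P0 P1 W e (gj j) n hg n1 (hgG.trans hG0R) n2 (hgj j) hswG).trans ?_
        rw [hA, hA₀, hW, mul_pow]
        apply mul_le_mul_of_nonneg_right _ (by positivity)
        have : 0 < 4 / θ := by positivity
        linarith
      · rw [abs_zero]; exact hA1.le
    · positivity
    · positivity
    · exact hG0
    · exact hGM
    · exact hGN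
    · positivity
    · intro m hm
      rw [h𝓜, mem_filter, mem_Icc] at hm
      exact ⟨hm.2.1, (Nat.le_floor_iff hMnn).1 hm.1.2, hm.2.2⟩
    · intro n hn
      obtain ⟨n1, n2, n3, n4, n5⟩ := hNR n hn
      refine ⟨?_, ?_, n5⟩
      · rw [div_le_iff₀ hPp, mul_comm]
        exact n3.le
      · rw [hNn, le_div_iff₀ (by positivity)]
        calc (n : ℝ) * (g * P) = g * (P * n) := by ring
          _ ≤ R := n4
    · intro k' h τ hτ hk' hh1 hh2 hkk
      obtain ⟨c1, c2⟩ := hcor τ hτ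
      exact hqb k k' h g R G0 Q P _ hk hkQ hk' hh1 hh2 hkk hg hgG hG0 hR1 hPp (abs_nonneg _) c1 c2
    · intro q γ hq1 hq2 hq0 hγ1 hγ2
      exact xb s R G0 Q q g γ P hs hR hG0 hg1 hgG hγ1 hγ2 hc3 hQ0 hQ1 hQ2 hq1 hq2 hP1' hxb1 hxb2
  obtain ⟨Λ, E', hΛ0, hE'0, hpoly, hexpE, hbound⟩ := hbound0
  obtain ⟨BB', hBB⟩ : ∃ z : ℝ, z = A ^ 2 * g * (Mm' * Nn) ^ 2 / Δ * (16 * (Λ * E') + 18 / G0) := ⟨_, rfl⟩
  rw [← hBB] at hbound
  have hBB0 : 0 ≤ BB' := (abs_nonneg _).trans (hbound 0 0)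
  -- the sum
  have hsel1 : ∑ e ∈ Icc 1 ⌊R⌋₊, selwq_g k e ≤ W := by
    refine le_trans ?_ hswG
    unfold sw_G
    apply sum_le_sum
    intro e _
    unfold selwq_g
    split_ifs
    · exact le_rfl
    · exact sw_g_nonneg e
  have htot : |Mi k l c L Δ R Y P0 P1 g i| ≤ W * (C₂ * ρ) * BB' := by
    rw [hexp, abs_div, abs_of_pos (by linarith : 0 < GS (SS k R Y P0 P1))]
    refine (div_le_self (abs_nonneg _) hGS).trans ?_
    calc _ ≤ ∑ e ∈ Icc 1 ⌊R⌋₊, ∑ j ∈ range J, selwq_g k e * w j * BB' := by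
          refine (abs_sum_le_sum_abs _ _).trans (sum_le_sum fun e _ => ?_)
          refine (abs_sum_le_sum_abs _ _).trans (sum_le_sum fun j _ => ?_)
          have hcf : 0 ≤ selwq_g k e * w j := mul_nonneg (selwq_g_nonneg k e) (hw0 j)
          rw [abs_mul, abs_of_nonneg hcf]
          exact mul_le_mul_of_nonneg_left (hbound e j) hcf
      _ = (∑ e ∈ Icc 1 ⌊R⌋₊, selwq_g k e) * (∑ j ∈ range J, w j) * BB' := by
          rw [sum_mul_sum, sum_mul]
          apply sum_congr rfl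
          intro e _
          rw [sum_mul]
      _ ≤ _ := by
          apply mul_le_mul_of_nonneg_right _ hBB0
          apply mul_le_mul hsel1 hwJ' (sum_nonneg fun j _ => hw0 j) hW0.le
  refine htot.trans ?_
  -- numerical part
  have hfac : 16 * (Λ * E') + 18 / G0 ≤ 18 * ((12 * C₁) ^ 20 * ρ ^ 80) * (E + 1 / G0) := by
    have h1 : 16 * (Λ * E') ≤ 16 * ((12 * C₁) ^ 20 * ρ ^ 80 * E) := by
      apply mul_le_mul_of_nonneg_left _ (by norm_num)
      exact mul_le_mul hpoly hexpE hE'0 (by positivity)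
    have h2 : (1 : ℝ) ≤ (12 * C₁) ^ 20 * ρ ^ 80 := by
      apply one_le_mul_of_one_le_of_one_le
      · apply one_le_pow₀; linarith
      · exact one_le_pow₀ hρ1
    generalize (12 * C₁) ^ 20 * ρ ^ 80 = Z at h1 h2 ⊢
    have h3 : 18 / G0 ≤ 18 * Z * (1 / G0) := by
      rw [mul_one_div]
      apply div_le_div_of_nonneg_right _ hG00.le
      linarith
    have h4 : 0 ≤ Z * E := mul_nonneg (by linarith) hE0.le
    calc _ ≤ 16 * (Z * E) + 18 * Z * (1 / G0) := add_le_add h1 h3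
      _ ≤ 18 * (Z * E) + 18 * Z * (1 / G0) := by linarith
      _ = _ := by ring
  have hMN : A ^ 2 * g * (Mm' * Nn) ^ 2 / Δ = A₀ ^ 2 * ρ ^ 4 * 4 * (R ^ 4 / (g ^ 3 * Δ)) := by
    rw [hMm', hNn, hA]
    field_simp
    ring
  have hfin : W * (C₂ * ρ) * BB' ≤ R ^ 4 / (g ^ 3 * Δ) * (K * ρ ^ 86 * (E + 1 / G0)) := by
    calc W * (C₂ * ρ) * BB' ≤ W * (C₂ * ρ) * (A₀ ^ 2 * ρ ^ 4 * 4 * (R ^ 4 / (g ^ 3 * Δ)) *
          (18 * ((12 * C₁) ^ 20 * ρ ^ 80) * (E + 1 / G0))) := by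
          apply mul_le_mul_of_nonneg_left _ (by positivity)
          rw [hBB, hMN]
          exact mul_le_mul_of_nonneg_left hfac (by positivity)
      _ = _ := by
          rw [hW, hK]
          ring
  exact hfin

end Pool.Agent.P8H73.KV
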