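import Pool.Agent.Y844.BT.Cls
import Pool.Agent.Y844.BT.Cnt
import Pool.Agent.P8H73.GM.Stm

/-!
# Project KV: the inequality of Brun and Titchmarsh with a constant below two beyond the polynomial range

Hard row MP_26a8c3_nt. Aim (`S_FIN`, `S_COR`): there are absolute `c, C > 0` such that for ALL moduli `k`, all classes
`l` prime to `k` and all real `x ≥ y` with `H = y / k` large and `H ≤ x ^ (3 / 4)`

`N(x, y; k, l) ≤ (2 - c (log H / log x) ^ 2 + C log log H / log H) y / (φ(k) log H)`,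

so the constant is smaller than `2` for all positions `x ≤ exp (c (log H) ^ (3 / 2) / (log log H) ^ (1 / 2))`; in the starting
files (and in the literature, as far as I know) this is known for `x ≤ H ^ A` only, with `A` fixed.

Method. Sieve of Selberg with the level `R ^ 2 = H ^ (1 + ω)`, `ω = c₂ (log H / log x) ^ 2`. Its error term is a bilinear form in the
two divisors; it is bounded by the method of Karatsuba (Hoelder inequality, large sieve on the product of the line and the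
residue ring, number of coincidences of sums of `s` reciprocals), everything uniformly in `s`, which is about
`log x / log H`. The exponents of Karatsuba's method are good if both variables have the size `R` unless `log (x / H) / log R`
is near an even number `2 s`. In this case the sieve is restricted to a divisor closed set `S` of divisors, such that all
`d ∈ S` near `R` have a prime factor `p` between `R ^ (θ / s)` and `R ^ (2 / (5 s))`, which is moved from one variable to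
the other; this costs a small part of the gain only.

From the library: namespace `Pool.Agent.Y844.BT`: `En k A s ρ` (number of coincidences), `xi`, `xm`, `Ps` (the phase), `Pw`,
`bil0`, `RR k l c L Δ q` (the discrepancy of the trapezoid weight `Wt L Δ`), `RR_triv`, `cls`, `cnt`, `pts`; namespace
`Pool.Agent.H376R2`: `MR.sw_g` (`μ² / φ`), `TT.selwq_g q m` (`sw_g m` if `(m, q) = 1`, else `0`), `TT.selwq_G`, `selwq_G_ge`,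
`sw_G_ge`, and the proofs for Selberg's weights; namespace `Pool.Agent.P8H73.GM`: `pr`, `V`, `N`, `S_MER`, `S_HI`, proved in
P8H73/GM/Base.lean (`mer`, `hi`). All constants are absolute.
-/

set_option autoImplicit false

namespace Pool.Agent.P8H73.KV

open Finset Pool.Agent.H376R2.MR Pool.Agent.H376R2.TT Pool.Agent.Y844.BT Pool.Agent.P8H73.GM

/-! ## Reciprocals -/

open Classical in
/-- CPW (200 lines): the number of `r`-tuples with a powerful product, uniformly in `r`. (Compare `count_pw` in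
Y844/BT/Enr.lean, which has constants depending on `r`.)

Proof. Let `d r q` be the number of `f : Fin r → ℕ` with product `q` (`Nat.finMulAntidiag`, or a filter of a `piFinset`).
(a) `d r (m n) ≤ d r m * d r n` (`m, n ≥ 1`): every `f` with product `m n` is `u v` with `∏ u = m`, `∏ v = n` (induction on `r`
with `exists_dvd_and_dvd_of_dvd_mul`). (b) Each powerful `q` is `a ^ 2 b ^ 3` with `b` squarefree (or as in `Pw_rep`, which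
gives some `a, b`; for squarefree `b` write `q = a' ^ 2 b`, `b` squarefree, `Nat.sq_mul_squarefree`, and `b ∣ a'`, so
`q = (a' / b) ^ 2 b ^ 3`). For `q ≤ N ^ r`: `1 ≤ (N ^ r / (a ^ 2 b ^ 3)) ^ (1 / 2)`. So the number is at most
`N ^ (r / 2) (∑_{a ≤ N ^ r} (d r a) ^ 2 / a) (∑_{b ≤ N ^ r, squarefree} (d r b) ^ 3 b ^ (- 3 / 2))`.
(c) `∑_{a ≤ Y} (d r a) ^ 2 / a ≤ ∑_{f ∈ [1, Y] ^ r} d r (∏ f) / ∏ f ≤ ∑_f ∏ (d r (f i) / f i) = (∑_{n ≤ Y} d r n / n) ^ r ≤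
((∑_{n ≤ Y} 1 / n) ^ r) ^ r ≤ (1 + log Y) ^ (r ^ 2)`. (d) For squarefree `b`: `d r b = r ^ ω(b)` (`Nat.card_finMulAntidiag_of_squarefree`,
or `d r b ≤ ∏_{p ∣ b} d r p` from (a) and `d r p = r`), so the last sum is at most `∏_{p ≤ Y} (1 + r ^ 3 / p ^ (3 / 2))`, and
`1 + u ^ 3 ≤ exp (u ^ 2)` with `u = r / p ^ (1 / 2)`; this is `≤ exp (r ^ 2 ∑_{p ≤ Y} 1 / p) ≤ (C₁ (1 + log Y)) ^ (r ^ 2)` by Mertens
(search for mertens, for example Erdos456/Mertens.lean `mertens_inv`). With `Y = N ^ r`. -/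
def S_CPW : Prop := ∃ C : ℝ, 1 ≤ C ∧ ∀ (r N : ℕ), 1 ≤ r → 1 ≤ N →
  (((Fintype.piFinset (fun _ : Fin r => Icc 1 N)).filter (fun f => Pw (∏ i, f i))).card : ℝ) ≤
    (N : ℝ) ^ ((r : ℝ) / 2) * (C * (1 + r * Real.log N)) ^ (3 * r ^ 2)

/-- ENU (120 lines; may assume `S_CPW`): the energy of reciprocals, uniformly in `s` and for all `ρ`.

Proof. (1) If `N ^ (2 s) ρ < k` the proof of `energy` in Y844/BT/Enr.lean (with `Pw_of_zero`, `zero_of_close`) bounds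
`En k A s ρ` by the number of `2 s`-tuples in `[1, ⌊N⌋]` with powerful product (pass from `Fin s ⊕ Fin s` to `Fin (s + s)` with
`finSumFinEquiv`, or repeat the injection with `Fin.append`). (2) For `ρ > ρ₀ := k / (2 N ^ (2 s))` cut the line into cells of
length `ρ₀`: with `n (a, j)` the number of the `v` with `xm k v = a` and `xi v` in the cell `j`,
`En k A s ρ ≤ ∑_a ∑_{|j - j'| ≤ ρ / ρ₀ + 1} n (a, j) n (a, j') ≤ (2 ρ / ρ₀ + 3) ∑ n (a, j) ^ 2 ≤ (2 ρ / ρ₀ + 3) En k A s ρ₀`. -/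
def S_ENU : Prop := ∃ C : ℝ, 1 ≤ C ∧ ∀ (s k : ℕ) (N ρ : ℝ) (A : Finset ℕ), 1 ≤ s → 1 ≤ k → 1 ≤ N → 0 ≤ ρ →
  (∀ n ∈ A, (1 ≤ n ∧ (n : ℝ) ≤ N) ∧ Nat.Coprime n k) →
  (En k A s ρ : ℝ) ≤ (1 + N ^ (2 * s) * ρ / k) * N ^ s * (C * (1 + s * Real.log N)) ^ (13 * s ^ 2)

/-- BIL (150 lines; may assume `S_ENU`): the bilinear bound, uniformly in `s` and `t`.

Proof. As for `bilF` in Y844/BT/Bil.lean (first reduce to `T ≥ 0` by conjugation, then `bil0`), with `S_ENU` for both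
energies: with `g = 1 + T / (M1 N1)`, `H = k g`, `En k 𝓝 s (2 s / (N1 g)) ≤ 2 s (1 + N ^ (2 s) / (N1 H)) N ^ s Λ` and
`En k 𝓜 t (8 t / (M1 g)) ≤ 8 t (1 + M ^ (2 t) / (M1 H)) M ^ t Λ'`. So the power `2 s t` of the norm is at most
`(M N) ^ (2 s t) * 27200 * s ^ 2 * t ^ 2 * Λ * Λ' * exp (- μ)`. Take the root: `Λ ^ (1 / (2 s t)) ≤ (C (1 + s log N)) ^ 13` as `s ≤ 2 t`,
`(27200 s ^ 2 t ^ 2) ^ (1 / (2 s t)) ≤ 1000`. -/
def S_BIL : Prop := ∃ C : ℝ, 1 ≤ C ∧ ∀ (s t : ℕ), 1 ≤ s → 1 ≤ t → s ≤ t + 1 → t ≤ s + 1 →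
  ∀ (k : ℕ) [NeZero k] (𝓜 𝓝 : Finset ℕ) (α β : ℕ → ℂ), (∀ m ∈ 𝓜, ‖α m‖ ≤ 1) → (∀ n ∈ 𝓝, ‖β n‖ ≤ 1) →
  ∀ (T : ℝ) (u : ZMod k), IsUnit u → ∀ (M N M1 N1 : ℝ), 0 < M1 → 0 < N1 → 1 ≤ M → 1 ≤ N →
  (∀ m ∈ 𝓜, 1 ≤ m ∧ M1 ≤ (m : ℝ) ∧ (m : ℝ) ≤ M) → (∀ n ∈ 𝓝, 1 ≤ n ∧ N1 ≤ (n : ℝ) ∧ (n : ℝ) ≤ N) →
  (∀ m ∈ 𝓜, Nat.Coprime m k) → (∀ n ∈ 𝓝, Nat.Coprime n k) →
  ∀ (H μ : ℝ), H = k * (1 + |T| / (M1 * N1)) → 0 ≤ μ →
  H * (1 + N ^ (2 * s) / (N1 * H)) * (1 + M ^ (2 * t) / (M1 * H)) ≤ Real.exp (-μ) * (M ^ t * N ^ s) →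
  ‖∑ m ∈ 𝓜, ∑ n ∈ 𝓝, α m * β n * Ps k T u (1 / (n : ℝ)) (1 / (m : ℝ)) (n : ZMod k)⁻¹ (m : ZMod k)⁻¹‖ ≤
    M * N * ((C * (1 + s * Real.log N) * (1 + t * Real.log M)) ^ 20 * Real.exp (-μ / (2 * s * t)))

/-- the four corners of the trapezoid weight -/
def Cor (c : ℤ) (L Δ : ℕ) (τ : ℤ) : Prop :=
  τ = c ∨ τ = c + Δ ∨ τ = c + (Δ + L : ℕ) ∨ τ = c + (2 * Δ + L : ℕ)

/-- CORE (80 lines; may assume `S_BIL`): `cls` (Y844/BT/Cls.lean) with `Hh = Gm = ⌊G0⌋₊ ≥ G0 / 2`,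
`B = (C (1 + s log N) (1 + t log M)) ^ 20 exp (- μ / (2 s t))`, and `S_BIL` for the sets `dg 𝓜 γ`, `dg 𝓝 γ` (elements between `M1 / γ`
and `M / γ`), for which the number `H` of `S_BIL` is `k' (1 + h |k τ + l| / (k e₀ M1 N1))`. -/
def S_CORE : Prop := ∃ C : ℝ, 1 ≤ C ∧ ∀ (s t : ℕ), 1 ≤ s → 1 ≤ t → s ≤ t + 1 → t ≤ s + 1 →
  ∀ (k : ℕ) (l c : ℤ) (L Δ e₀ : ℕ) (𝓜 𝓝 : Finset ℕ) (α β : ℕ → ℝ) (A M N M1 N1 G0 Qlo Qhi μ : ℝ),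
  1 ≤ k → IsCoprime l (k : ℤ) → 1 ≤ Δ → 1 ≤ e₀ → Nat.Coprime e₀ k → 0 < A → (∀ m, |α m| ≤ A) → (∀ n, |β n| ≤ A) →
  0 < M1 → 0 < N1 → 1 ≤ G0 → G0 ≤ M → G0 ≤ N → 0 ≤ μ →
  (∀ m ∈ 𝓜, M1 ≤ (m : ℝ) ∧ (m : ℝ) ≤ M ∧ Nat.Coprime m k) → (∀ n ∈ 𝓝, N1 ≤ (n : ℝ) ∧ (n : ℝ) ≤ N ∧ Nat.Coprime n k) →
  (∀ (k' h : ℕ) (τ : ℤ), Cor c L Δ τ → k' ∣ k → 1 ≤ h → (h : ℝ) ≤ G0 → k ≤ k' * h →
    Qlo ≤ k' * (1 + h * |(k : ℝ) * τ + l| / (k * e₀ * (M1 * N1))) ∧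
    k' * (1 + h * |(k : ℝ) * τ + l| / (k * e₀ * (M1 * N1))) ≤ Qhi) →
  (∀ q γ : ℝ, Qlo ≤ q → q ≤ Qhi → 0 < q → 1 ≤ γ → γ ≤ G0 →
    q * (1 + (N / γ) ^ (2 * s) / (N1 / γ * q)) * (1 + (M / γ) ^ (2 * t) / (M1 / γ * q)) ≤
      Real.exp (-μ) * ((M / γ) ^ t * (N / γ) ^ s)) →
  |∑ m ∈ 𝓜, ∑ n ∈ 𝓝, (if Nat.Coprime m n then 1 else 0) * (α m * β n * RR k l c L Δ (e₀ * (m * n)))| ≤
    A ^ 2 * e₀ * (M * N) ^ 2 / Δ *
      (16 * ((C * (1 + s * Real.log N) * (1 + t * Real.log M)) ^ 20 * Real.exp (-μ / (2 * s * t))) + 18 / G0)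

/-! ## Selberg's weights with a divisor closed set -/

/-- the sum of `μ² / φ` over the set -/
noncomputable def GS (S : Finset ℕ) : ℝ := ∑ m ∈ S, sw_g m

/-- Selberg's weights of the set -/
noncomputable def lam (S : Finset ℕ) (d : ℕ) : ℝ :=
  (ArithmeticFunction.moebius d : ℝ) * d * (∑ m ∈ S.filter (fun m => d ∣ m), sw_g m) / GS S

/-- divisor closed sets of squarefree numbers `≤ R` prime to `k` -/
def Adm (S : Finset ℕ) (k : ℕ) (R : ℝ) : Prop :=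
  1 ∈ S ∧ (∀ m ∈ S, Squarefree m ∧ Nat.Coprime m k ∧ (m : ℝ) ≤ R) ∧ ∀ m ∈ S, ∀ d, d ∣ m → d ∈ S

/-- SEL (250 lines): Selberg's weights. Proof: as in H376R2/MR/Selw.lean (`sw_key`, `sw_Y`, `sw_form`, `sw_moebius_sum`, `sw_lcm`)
and H376R2/TT/Selwq.lean with `Icc 1 D` replaced by `S`. `|lam S d| ≤ 1` for `d ∈ S`: for `l ∣ d`,
`∑_{m ∈ S, (m, d) = l} sw_g m = sw_g l ∑_{e : (e, d) = 1, l e ∈ S} sw_g e ≥ sw_g l ∑_{e : (e, d) = 1, d e ∈ S} sw_g e` as `S` is divisor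
closed; sum over `l ∣ d` (`sw_sum`). The form: with `y r = ∑_{d ∈ S, r ∣ d} lam S d / d` (`= μ(r) sw_g r / GS S` for `r ∈ S`) and
`1 / [d, e] = (1 / (d e)) ∑_{r ∣ (d, e)} φ(r)` the form is `∑_{r ∈ S} φ(r) (y r) ^ 2 = 1 / GS S`. -/
def S_SEL : Prop := ∀ S : Finset ℕ, 1 ∈ S → (∀ m ∈ S, Squarefree m) → (∀ m ∈ S, ∀ d, d ∣ m → d ∈ S) →
  lam S 1 = 1 ∧ (∀ d, |lam S d| ≤ 1) ∧ (∀ d, d ∉ S → lam S d = 0) ∧
  ∑ d ∈ S, ∑ e ∈ S, lam S d * lam S e / (Nat.lcm d e : ℝ) = 1 / GS S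

/-- the error term of the sieve -/
noncomputable def Err (k : ℕ) (l c : ℤ) (L Δ : ℕ) (S : Finset ℕ) : ℝ :=
  ∑ d ∈ S, ∑ e ∈ S, lam S d * lam S e * RR k l c L Δ (Nat.lcm d e)

/-- MAJ (150 lines; may assume `S_SEL`): the majorant.

Proof. `cnt` (Y844/BT/Cnt.lean) with `D = R`, `w v = (∑_{d ∈ S, (d : ℤ) ∣ v} lam S d) ^ 2` (which is `1` for the primes `> R`), `u0`, `u1` as
there, `c = u0 - Δ`, `L = u1 - u0`; `cnt_small` for the primes up to `R`; `Pr_card`; expand the square (compare `sieve_sum`),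
`d ∣ v ∧ e ∣ v ↔ lcm d e ∣ v`, definition of `RR`, `S_SEL`. The claim on the corners is as in `pts` (Y844/BT/Asa.lean). -/
def S_MAJ : Prop := ∀ (k : ℕ) (l : ℤ) (x y R : ℝ) (Δ : ℕ) (S : Finset ℕ), 1 ≤ k → y ≤ x → 200 ≤ y / k → 1 ≤ Δ →
  (Δ : ℝ) ≤ y / k / 100 → 0 ≤ R → Adm S k R →
  ∃ (c : ℤ) (L : ℕ), (L : ℝ) ≤ y / k + 1 ∧
    (∀ τ, Cor c L Δ τ → |(k : ℝ) * τ + l| ≤ 3 * x ∧ (x ≤ 8 * |(k : ℝ) * τ + l| ∨ x / (y / k) ≤ 16 * k)) ∧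
    (N x y k l : ℝ) ≤ (Δ + L) / GS S + Err k l c L Δ S + R / k + 1

/-- the part of the error term with the greatest common divisor `g` and both cofactors `> Y` -/
noncomputable def Eg (k : ℕ) (l c : ℤ) (L Δ : ℕ) (S : Finset ℕ) (Y : ℝ) (g : ℕ) : ℝ :=
  ∑ m ∈ S.filter (fun m : ℕ => Y < (m : ℝ)), ∑ n ∈ S.filter (fun n : ℕ => Y < (n : ℝ)),
    (if Nat.Coprime m n then 1 else 0) * (lam S (g * m) * lam S (g * n) * RR k l c L Δ (g * (m * n)))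

/-- TRV (200 lines; may assume `S_SEL`): the greatest common divisor, and the trivial part of the error term.

Proof. (1) `|RR k l c L Δ q| ≤ L / Δ + 4` for all `q ≥ 1` prime to `k`: for `q ≤ 2 Δ + L` by `RR_triv`; for `q > 2 Δ + L` from the
definition: at most one `n < 2 Δ + L` satisfies `q ∣ k (c + n) + l` (as `q` is prime to `k`), `0 ≤ Wt ≤ 1`, `(Δ + L) / q ≤ 1`.
(2) The pairs `(d, e) ∈ S × S` correspond to the triples `(g, m, n)`, `g = gcd (d, e)`, `d = g m`, `e = g n`, `(m, n) = 1`,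
`lcm = g (m n)`; `m, n, g ∈ S`; `lam S (g m) = 0` if `g m ∉ S`. (3) If `m, n > R / G0` and `lam S (g m) ≠ 0` then `g m ≤ R`, so `g ≤ G0`.
The other triples have `m ≤ R / G0` or `n ≤ R / G0`, and `m, n ≤ R / g`; their number is at most
`2 ∑_{g ≤ R} min (R / G0, R / g) (R / g) ≤ 2 (R ^ 2 / G0) (1 + log G0) + 4 R ^ 2 / G0`, with `|lam| ≤ 1`. -/
def S_TRV : Prop := ∀ (k : ℕ) (l c : ℤ) (L Δ : ℕ) (S : Finset ℕ) (R G0 : ℝ), 1 ≤ k → 1 ≤ Δ → 1 ≤ G0 → G0 ≤ R →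
  Adm S k R → |Err k l c L Δ S| ≤ ∑ g ∈ S.filter (fun g : ℕ => (g : ℝ) ≤ G0), |Eg k l c L Δ S (R / G0) g| +
    20 * ((L : ℝ) / Δ + 4) * (R ^ 2 / G0) * (1 + Real.log G0)

/-! ## Both variables of the size `R` -/

/-- QB (50 lines): the size of the conductor. Proof: upper bound: `k' ≤ k ≤ Q` and `k' h v G0 ^ 2 / (k g R ^ 2) ≤ 3 Q G0 ^ 3`; lower
bound: if `Q R ^ 2 ≤ 8 G0 v` then `k' h ≥ k` gives `≥ v G0 ^ 2 / (g R ^ 2) ≥ Q / 8`; if `Q ≤ 16 k` then `k' ≥ k / h ≥ Q / (16 G0)`. -/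
def S_QB : Prop := ∀ (k k' h g : ℕ) (R G0 Q P v : ℝ), 1 ≤ k → (k : ℝ) ≤ Q → k' ∣ k → 1 ≤ h → (h : ℝ) ≤ G0 → k ≤ k' * h →
  1 ≤ g → (g : ℝ) ≤ G0 → 1 ≤ G0 → 1 ≤ R → 0 < P → 0 ≤ v → v ≤ 3 * Q * R ^ 2 → (Q * R ^ 2 ≤ 8 * G0 * v ∨ Q ≤ 16 * k) →
  Q / (16 * G0) ≤ k' * (1 + h * v / (k * g * (R / G0 * P * (R / G0 / P)))) ∧
  k' * (1 + h * v / (k * g * (R / G0 * P * (R / G0 / P)))) ≤ 4 * Q * G0 ^ 3

/-- XA (80 lines): exponents, both variables of the size `R`.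

Proof. Let `ρ = log R`, `Z = R / g / γ`, `Z₁ = R / G0 / γ`. The quotient of the left side by `Z ^ (2 s)` is
`q / Z ^ (2 s) + 2 / Z₁ + Z ^ (2 s) / (Z₁ ^ 2 q)`, with the logarithms
`≤ (2 s - 1/2) ρ + log 4 + 3 log G0 - 2 s (ρ - 2 log G0)`, `≤ log 2 - ρ + 2 log G0` and
`≤ 2 s ρ - 2 (ρ - 2 log G0) - (2 s - 3/2) ρ + log 16 + log G0`, thus at most `- ρ / 2 + (4 s + 5) (1 + log G0)`. -/
def S_XA : Prop := ∃ C : ℝ, 1 ≤ C ∧ ∀ (s : ℕ) (R G0 Q q g γ : ℝ), 1 ≤ s → 3 ≤ R → 1 ≤ G0 → 1 ≤ g → g ≤ G0 → 1 ≤ γ →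
  γ ≤ G0 → C * s * (1 + Real.log G0) ≤ Real.log R → 0 < Q → (2 * s - 3 / 2) * Real.log R ≤ Real.log Q →
  Real.log Q ≤ (2 * s - 1 / 2) * Real.log R → Q / (16 * G0) ≤ q → q ≤ 4 * Q * G0 ^ 3 →
  q * (1 + (R / g / γ) ^ (2 * s) / (R / G0 / γ * q)) * (1 + (R / g / γ) ^ (2 * s) / (R / G0 / γ * q)) ≤
    Real.exp (-(Real.log R / 3)) * ((R / g / γ) ^ s * (R / g / γ) ^ s)

/-- EA (150 lines; may assume `S_CORE`, `S_SEL`, `S_QB`, `S_XA`): the error terms if `log Q / log R` is near an odd number.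

Proof. `S_CORE` with `s = t`, `e₀ = g`, `𝓜 = 𝓝 = S.filter (R / G0 < ·)` restricted to the elements `≤ R / g` (the others have
`lam S (g m) = 0`), `α m = lam S (g m)`, `β n = lam S (g n)`, `A = 1`, `M = N = R / g`, `M1 = N1 = R / G0`, `Qlo = Q / (16 G0)`, `Qhi = 4 Q G0 ^ 3`
(`S_QB` with `P = 1`), `μ = log R / 3` (`S_XA`). `s ≤ log R`, so the logarithmic factor is at most `(C (log R) ^ 4) ^ 20`. If
`R / g < G0` the sum is empty or trivial (`R / G0 < m ≤ R / g` needs `g < G0`; and `G0 ^ 2 ≤ R`). -/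
def S_EA : Prop := ∃ C : ℝ, 1 ≤ C ∧ ∀ (s k : ℕ) (l c : ℤ) (L Δ g : ℕ) (S : Finset ℕ) (R G0 Q : ℝ), 1 ≤ s → 1 ≤ k →
  (k : ℝ) ≤ Q → IsCoprime l (k : ℤ) → 1 ≤ Δ → 1 ≤ g → (g : ℝ) ≤ G0 → Nat.Coprime g k → 3 ≤ R → 1 ≤ G0 → Adm S k R →
  C * s * (1 + Real.log G0) ≤ Real.log R → (2 * s - 3 / 2) * Real.log R ≤ Real.log Q →
  Real.log Q ≤ (2 * s - 1 / 2) * Real.log R →
  (∀ τ, Cor c L Δ τ → |(k : ℝ) * τ + l| ≤ 3 * Q * R ^ 2 ∧ (Q * R ^ 2 ≤ 8 * G0 * |(k : ℝ) * τ + l| ∨ Q ≤ 16 * k)) →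
  |Eg k l c L Δ S (R / G0) g| ≤
    R ^ 4 / (g ^ 3 * Δ) * ((C * Real.log R) ^ 100 * (Real.exp (-(Real.log R / (6 * s ^ 2))) + 1 / G0))

/-! ## A prime factor is moved from one variable to the other -/

open Classical in
/-- the squarefree `m ≤ R` prime to `k` which are `≤ Y` or have a prime factor in `(P0, P1]` -/
noncomputable def SS (k : ℕ) (R Y P0 P1 : ℝ) : Finset ℕ :=
  (Icc 1 ⌊R⌋₊).filter (fun m => Squarefree m ∧ Nat.Coprime m k ∧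
    ((m : ℝ) ≤ Y ∨ ∃ p : ℕ, p.Prime ∧ P0 < (p : ℝ) ∧ (p : ℝ) ≤ P1 ∧ p ∣ m))

/-- ADM (40 lines). If `d ∣ m ∈ SS`, `d > Y`, then `m > Y` has a prime factor `p` in `(P0, P1]`; if `p ∤ d` then
`d ≤ m / p < R / P0 ≤ Y`. -/
def S_ADM : Prop := ∀ (k : ℕ) (R Y P0 P1 : ℝ), 1 ≤ k → 1 ≤ Y → Y ≤ R → 0 < P0 → R ≤ P0 * Y → Adm (SS k R Y P0 P1) k R

/-- `μ(m) m / φ(m)` if `m` is prime to `k` -/
noncomputable def psi (k m : ℕ) : ℝ := (ArithmeticFunction.moebius m : ℝ) * m * selwq_g k m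

/-- FORM (120 lines): the weights at multiples of a prime in `(P0, P1]`.

Proof. Let `d = g (p n)`. If `d` is not squarefree or not prime to `k` both sides are `0`. The members of `SS` divisible by
`d` are the `d e ≤ R` which are squarefree and prime to `k` (the last condition in the definition holds because of `p`),
and `selwq_g k (d e) = selwq_g k d * selwq_g k e` if `(d, e) = 1`, otherwise `0`; `selwq_g k` and `μ` are multiplicative. -/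
def S_FORM : Prop := ∀ (k g p n : ℕ) (R Y P0 P1 : ℝ), 1 ≤ k → 1 ≤ R → 1 ≤ g → 1 ≤ n → p.Prime → P0 < (p : ℝ) →
  (p : ℝ) ≤ P1 → ¬ p ∣ g → ¬ p ∣ n → lam (SS k R Y P0 P1) (g * (p * n)) =
    (∑ e ∈ Icc 1 ⌊R⌋₊, selwq_g k e * (if Nat.Coprime g e then psi k g else 0) * (if Nat.Coprime p e then psi k p else 0) *
      (if Nat.Coprime n (g * e) then psi k n else 0) * (if p ≤ ⌊R / (g * n * e)⌋₊ then 1 else 0)) / GS (SS k R Y P0 P1)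

/-- SEP (100 lines): separation of the variables in `p ≤ r`.

Proof. Let `X < 2 ^ K`, `K ≤ 1 + log₂ X`. `p < r` iff for exactly one `i < K` the numbers `p / 2 ^ (i + 1)` and `r / 2 ^ (i + 1)` are equal,
the bit `i` of `p` is `0` and the bit `i` of `r` is `1`. For `u, v < 2 ^ K` the indicator of `u = v` is the mean value of
`ε u * ε v` over all `ε : Fin (2 ^ K) → {1, -1}` (or a Fourier expansion, real and imaginary parts). So the indicator of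
`p ≤ r` (`p < r + 1`, take `X + 1 < 2 ^ K`) is a sum of `w j f j p g j r` with `∑ w j = K`. -/
def S_SEP : Prop := ∃ C : ℝ, 1 ≤ C ∧ ∀ X : ℕ, 2 ≤ X → ∃ (J : ℕ) (w : ℕ → ℝ) (f g : ℕ → ℕ → ℝ), (∀ j, 0 ≤ w j) ∧
  ∑ j ∈ range J, w j ≤ C * Real.log X ∧ (∀ j p, |f j p| ≤ 1) ∧ (∀ j r, |g j r| ≤ 1) ∧
  ∀ p r : ℕ, p ≤ X → r ≤ X → (if p ≤ r then (1 : ℝ) else 0) = ∑ j ∈ range J, w j * (f j p * g j r)

/-- the number of the prime factors in `(P0, P1]` -/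
noncomputable def nu (P0 P1 : ℝ) (n : ℕ) : ℕ := by
  classical
  exact (n.primeFactors.filter (fun q : ℕ => P0 < (q : ℝ) ∧ (q : ℝ) ≤ P1)).card

open Classical in
/-- the part of `Eg` with a marked prime factor `p` of the second variable, `2 ^ i ≤ p < 2 ^ (i + 1)` -/
noncomputable def Mi (k : ℕ) (l c : ℤ) (L Δ : ℕ) (R Y P0 P1 : ℝ) (g i : ℕ) : ℝ :=
  ∑ m ∈ (SS k R Y P0 P1).filter (fun m : ℕ => Y < (m : ℝ)),
    ∑ p ∈ (Ico (2 ^ i) (2 ^ (i + 1))).filter (fun p : ℕ => p.Prime ∧ P0 < (p : ℝ) ∧ (p : ℝ) ≤ P1),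
      ∑ n ∈ (Icc 1 ⌊R⌋₊).filter (fun n : ℕ => Y < 2 ^ i * (n : ℝ)),
        (if Nat.Coprime m p ∧ Nat.Coprime (m * p) n then 1 else 0) *
          (lam (SS k R Y P0 P1) (g * m) * (lam (SS k R Y P0 P1) (g * (p * n)) / (1 + nu P0 P1 n)) *
            RR k l c L Δ (g * (m * p * n)))

/-- SPL (200 lines; may assume `S_SEL`, `S_ADM`): the marked prime factor. Here `Y = R / G0`, `S = SS k R Y P0 P1`.

Proof. If `lam S (g n₁) ≠ 0` and `n₁ > Y` then `g n₁ ∈ S`, `g n₁ > Y`, so `g n₁` has a prime factor `p` in `(P0, P1]`; `p > P0 ≥ G0 ≥ g`,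
so `p ∣ n₁`. Write `1 = (1 / nu n₁) ∑_{p ∣ n₁} 1` over these primes, `n₁ = p n`, `p ∤ n` (`n₁` is squarefree), `nu n₁ = 1 + nu n`. If
`2 ^ i ≤ p < 2 ^ (i + 1)` and `2 ^ i n > Y` the term is in `Mi i` (and `p n ≥ 2 ^ i n > Y` there automatically; if
`lam S (g (p n)) ≠ 0` then `p n ∈ S`). The remaining terms have `n₁ = p n ≤ 2 Y`; as `|lam| ≤ 1`, `|RR| ≤ L / Δ + 4` (see TRV (1))
and the sum of the weights `1 / nu n₁` over `p` is at most `1` they contribute at most `(R / g) (2 Y) (L / Δ + 4)`. -/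
def S_SPL : Prop := ∀ (k : ℕ) (l c : ℤ) (L Δ g : ℕ) (R G0 P0 P1 : ℝ), 1 ≤ k → 1 ≤ Δ → 1 ≤ G0 → G0 ≤ P0 → G0 ≤ R →
  1 ≤ g → (g : ℝ) ≤ G0 → |Eg k l c L Δ (SS k R (R / G0) P0 P1) (R / G0) g| ≤
    ∑ i ∈ range (Nat.log 2 ⌊R⌋₊ + 1), |Mi k l c L Δ R (R / G0) P0 P1 g i| + 4 * ((L : ℝ) / Δ + 4) * (R ^ 2 / (g * G0))

/-- XB (100 lines): exponents with the moved prime factor of size `P`.

Proof. With `ρ = log R`, `N = R / (g P) / γ`, `N₁ = R / G0 / P / γ`, `M = 2 P R / g / γ`, `M₁ = R / G0 P / γ` the logarithms of the four terms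
`q / (M ^ s N ^ (s+1))`, `N ^ (s+1) / (N₁ M ^ s)`, `M ^ s / (M₁ N ^ (s+1))`, `M ^ s N ^ (s+1) / (M₁ N₁ q)` are at most
`log q - (2 s + 1) ρ + log P + (4 s + 2) log G0 ≤ - ρ / 10 + (4 s + 5) log G0 + log 4`,
`- 2 s log P + log G0 ≤ - 2 θ ρ + 2 s log 2 + log G0`, `- 2 ρ + 2 s log P + s log 2 + 4 log G0 ≤ - (6 / 5) ρ + s log 2 + 4 log G0` and
`(2 s - 1) ρ + s log 2 + 4 log G0 - log q ≤ - ρ / 2 + s log 2 + 5 log G0 + log 16`; all are `≤ - θ ρ - log 4` if `C` is large. -/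
def S_XB : Prop := ∀ θ : ℝ, 0 < θ → θ ≤ 1 / 40 → ∃ C : ℝ, 1 ≤ C ∧ ∀ (s : ℕ) (R G0 Q q g γ P : ℝ), 1 ≤ s → 3 ≤ R →
  1 ≤ G0 → 1 ≤ g → g ≤ G0 → 1 ≤ γ → γ ≤ G0 → C * s * (1 + Real.log G0) ≤ Real.log R → 0 < Q →
  (2 * s - 1 / 2) * Real.log R ≤ Real.log Q → Real.log Q ≤ (2 * s + 1 / 2) * Real.log R → Q / (16 * G0) ≤ q →
  q ≤ 4 * Q * G0 ^ 3 → 1 ≤ P → θ / s * Real.log R ≤ Real.log (2 * P) → Real.log P ≤ 2 / (5 * s) * Real.log R →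
  q * (1 + (R / (g * P) / γ) ^ (2 * (s + 1)) / (R / G0 / P / γ * q)) *
    (1 + (2 * P * R / g / γ) ^ (2 * s) / (R / G0 * P / γ * q)) ≤
    Real.exp (-(θ * Real.log R)) * ((2 * P * R / g / γ) ^ s * (R / (g * P) / γ) ^ (s + 1))

/-- EBM (300 lines; may assume `S_CORE`, `S_SEL`, `S_ADM`, `S_FORM`, `S_SEP`, `S_QB`, `S_XB`). Here `P0 = R ^ (θ / s)`,
`P1 = R ^ (2 / (5 s))`, `Y = R / G0`, `S = SS k R Y P0 P1`, `P = 2 ^ i`.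

Proof. If the block of primes is empty, `Mi = 0`. Otherwise `R ^ (θ / s) ≤ 2 P`, `P ≤ R ^ (2 / (5 s))`. In `Mi` only the `n ≤ R / (g P)`
matter (`g p n ≤ R` if `lam S (g (p n)) ≠ 0`). Insert `S_FORM` (`p ∤ g` as `p > P0 ≥ G0 ≥ g`, which follows from the hypothesis with `C`
large; `p ∤ n` by the coprimality) and `S_SEP` with `X = ⌊R⌋₊`, `r = ⌊R / (g n e)⌋₊`. For fixed `e`, `j` this is
`∑_{m' ∈ 𝓜} ∑_{n ∈ 𝓝} [(m', n) = 1] α(m') β(n) RR(g (m' n))`, where `𝓜` is the set of the `m'` prime to `k` with `Y P < m' ≤ 2 P R / g`, `𝓝` the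
set of the `n` prime to `k` with `Y / P < n ≤ R / (g P)`,
`α(m') = ∑ lam S (g m' / p) [(p, e) = 1] psi k p * f j p` over the primes `p` of the block with `p ∣ m'`, `m' / p ∈ S`, `m' / p > Y`,
`(m' / p, p) = 1` (in the sum over `m` only the `m ≤ R / g` matter), so `|α| ≤ 2 #{p ∣ m' : p > P0} ≤ 2 (2 log R) / (θ log R / s)`, and
`β(n) = [(g, e) = 1] psi k g [(n, g e) = 1] psi k n * g j r / (1 + nu n)`, `|β| ≤ (g / φ(g)) (n / φ(n)) ≤ (C log R) ^ 2` (for example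
`n / φ(n) = ∑_{d ∣ n} sw_g d ≤ sw_G n ≤ log n + C`, from `S_HI`). `S_CORE` with (`s + 1`, `s`) as (`s`, `t`), `e₀ = g`, `M = 2 P R / g`,
`N = R / (g P)`, `M1 = R / G0 * P`, `N1 = R / G0 / P`, `Qlo = Q / (16 G0)`, `Qhi = 4 Q G0 ^ 3` (`S_QB`), `μ = θ log R` (`S_XB`; put
`g * P` etc. in the right form), and `2 (s + 1) s ≤ 4 s ^ 2`. Sum over `e` (`∑ selwq_g k e ≤ sw_G ⌊R⌋ ≤ log R + C`) and `j`
(`≤ C log R`); `GS S ≥ 1`. -/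
def S_EBM : Prop := ∀ θ : ℝ, 0 < θ → θ ≤ 1 / 40 → ∃ C : ℝ, 1 ≤ C ∧
  ∀ (s k : ℕ) (l c : ℤ) (L Δ g i : ℕ) (R G0 Q : ℝ), 1 ≤ s → 1 ≤ k → (k : ℝ) ≤ Q → IsCoprime l (k : ℤ) → 1 ≤ Δ →
  1 ≤ g → (g : ℝ) ≤ G0 → Nat.Coprime g k → 3 ≤ R → 1 ≤ G0 → C * s * (1 + Real.log G0) ≤ Real.log R →
  (2 * s - 1 / 2) * Real.log R ≤ Real.log Q → Real.log Q ≤ (2 * s + 1 / 2) * Real.log R →
  (∀ τ, Cor c L Δ τ → |(k : ℝ) * τ + l| ≤ 3 * Q * R ^ 2 ∧ (Q * R ^ 2 ≤ 8 * G0 * |(k : ℝ) * τ + l| ∨ Q ≤ 16 * k)) →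
  |Mi k l c L Δ R (R / G0) (R ^ (θ / (s : ℝ))) (R ^ (2 / (5 * (s : ℝ)))) g i| ≤
    R ^ 4 / (g ^ 3 * Δ) * ((C * Real.log R) ^ 100 * (Real.exp (-(θ * Real.log R / (4 * s ^ 2))) + 1 / G0))

/-! ## The main term -/

/-- UPI (200 lines): sieve bound in short intervals on the logarithmic scale.

Proof. (1) There is an absolute `C` such that for all `X ≥ z ^ (5/4)`, `z ≥ 2` and all finite sets `K` of primes `≤ z` every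
interval `(X, 2 X]` contains at most `C X V K` integers prime to `pr K` (upper bound sieve, for example with the weights of
Selberg or the fundamental lemma; search the library, there are several versions). So `∑ 1 / m` over the `m` prime to `pr K` in
`(t', t' G]` is at most `C V K (1 + log G)` if `t' ≥ z ^ (5/4)`. (2) `sw_g m ≤ (1 / m) (m / φ(m)) = (1 / m) ∑_{d ∣ m} sw_g d`, so the sum is at
most `∑_{d prime to pr K} (sw_g d / d) ∑_{t / (G d) < m' ≤ t / d} 1 / m'` over the `m'` prime to `pr K`. For `d ≤ t ^ (1/4)` use (1)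
(`t / (G d) ≥ t ^ (1 - 1/10 - 1/4) ≥ z ^ (5/4)`, as `z ^ 2 ≤ t`), for `d > t ^ (1/4)` the inner sum is at most `1 + log G` and
`∑_{d > D} sw_g d / d ≤ C D ^ (- 1/2)`, and `V K ≥ c / log z`. -/
def S_UPI : Prop := ∃ C : ℝ, 1 ≤ C ∧ ∀ (K : Finset ℕ) (z t G : ℝ), (∀ p ∈ K, p.Prime ∧ (p : ℝ) ≤ z) → 2 ≤ z → z ^ 2 ≤ t →
  1 ≤ G → G ^ 10 ≤ t →
  ∑ m ∈ (Icc 1 ⌊t⌋₊).filter (fun m : ℕ => t / G < (m : ℝ)), selwq_g (pr K) m ≤ C * V K * (1 + Real.log G)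

/-- GSL (150 lines; may assume `S_UPI`): the main term for `S = SS k R (R / G0) P0 P1`.

Proof. `GS S = selwq_G k ⌊R⌋ - T`, `T` the sum of `selwq_g k m` over the `m ≤ R`, `m > R / G0` without prime factors in `(P0, P1]`.
`selwq_G k ⌊R⌋ ≥ (φ(k) / k) log ⌊R⌋ ≥ (φ(k) / k) (log R - 1)` (`selwq_G_ge`). `T ≤ C V K (1 + log G0)` by `S_UPI`, where `K` is the set of the primes
`p ≤ P1` with `p ∣ k` or `p > P0` (`z = P1`). `V K ≤ (φ(k) / k) ∏_{p ∣ k, p > P0} (1 - 1/p)⁻¹ ∏_{P0 < p ≤ P1} (1 - 1/p)`; the last product is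
`≤ C log P0 / log P1` (Mertens), and the first is at most `exp (2 ω(k) / P0) ≤ exp (4 (log k) / P0) ≤ C`. -/
def S_GSL : Prop := ∃ C : ℝ, 1 ≤ C ∧ ∀ (k : ℕ) (R G0 P0 P1 : ℝ), 1 ≤ k → 1 ≤ G0 → G0 ^ 10 ≤ R → 2 ≤ P0 → P0 ≤ P1 →
  P1 ^ 2 ≤ R → Real.log k ≤ P0 →
  (Nat.totient k : ℝ) / k * (Real.log R - 1 - C * (Real.log P0 / Real.log P1) * (1 + Real.log G0)) ≤
    GS (SS k R (R / G0) P0 P1)

/-! ## The end -/

/-- the conclusion on the sieve for given parameters: `R = H ^ ((1 + ω) / 2)`, the position is `Q * H` -/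
def Concl (C H Q ω : ℝ) (k : ℕ) (l : ℤ) : Prop :=
  ∃ S : Finset ℕ, Adm S k (H ^ ((1 + ω) / 2)) ∧
    (Nat.totient k : ℝ) / k * (Real.log H / 2) * (1 + ω / 2 - C / Real.log H) ≤ GS S ∧
    ∀ (c : ℤ) (L Δ : ℕ), H ^ (1 - ω) ≤ (Δ : ℝ) → (Δ : ℝ) ≤ H → (L : ℝ) ≤ 2 * H →
      (∀ τ, Cor c L Δ τ → |(k : ℝ) * τ + l| ≤ 3 * (Q * H) ∧ (Q * H ≤ 8 * |(k : ℝ) * τ + l| ∨ Q ≤ 16 * k)) →
      |Err k l c L Δ S| ≤ H ^ (1 - ω)

/-- EEA (200 lines; may assume `S_TRV`, `S_EA`, `S_ADM`): `log Q / log R` near an odd number.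

Proof. `R = H ^ ((1 + ω) / 2)`, `G0 = H ^ (5 ω)`, `S = SS k R R 1 1` (all squarefree `m ≤ R` prime to `k`; for `Adm` directly or by `S_ADM`
with `Y = R`, `P0 = 1`), `GS S = selwq_G k ⌊R⌋ ≥ (φ(k) / k) (log R - 1)`. From the hypotheses `ω ≤ c₂`, `s ^ 2 ≤ c₂ / ω ≤ (log H) / C`, so
`C₁ s (1 + log G0) ≤ C₁ s + 5 C₁ c₂ (log H) / s ≤ log R` (`C₁` of `S_EA`) for `c₂` small and `C` large. The corner conditions of `S_EA` hold as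
`H ≤ R ^ 2 ≤ G0 H`. `S_TRV` and `S_EA`: `|Err| ≤ 2 (R ^ 4 / Δ) (C₁ log R) ^ 100 (exp (- log R / (6 s ^ 2)) + 1 / G0) + 20 (L / Δ + 4) (R ^ 2 / G0) (1 + log G0)`;
`R ^ 4 / Δ ≤ H ^ (1 + 3 ω)`, `exp (- log R / (6 s ^ 2)) ≤ H ^ (- 1 / (12 s ^ 2)) ≤ H ^ (- 5 ω)` if `c₂ ≤ 1 / 60`, `L / Δ ≤ 2 H ^ ω`,
`R ^ 2 / G0 = H ^ (1 - 4 ω)`; so it is at most `H ^ (1 - 2 ω) (C₂ log H) ^ 101 ≤ H ^ (1 - ω)`, since `ω log H ≥ C log log H` and `H ≥ H₀`. -/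
def S_EEA : Prop := ∃ c₂ C H₀ : ℝ, 0 < c₂ ∧ c₂ ≤ 1 / 100 ∧ 1 ≤ C ∧ 3 ≤ H₀ ∧
  ∀ (H Q ω : ℝ) (k s : ℕ) (l : ℤ), H₀ ≤ H → 1 ≤ k → (k : ℝ) ≤ Q → IsCoprime l (k : ℤ) → 1 ≤ s → 0 < ω →
  ω * s ^ 2 ≤ c₂ → C * Real.log (Real.log H) ≤ ω * Real.log H →
  (2 * s - 3 / 2) * ((1 + ω) / 2 * Real.log H) ≤ Real.log Q →
  Real.log Q ≤ (2 * s - 1 / 2) * ((1 + ω) / 2 * Real.log H) → Concl C H Q ω k l

/-- EEB (250 lines; may assume `S_TRV`, `S_SPL`, `S_EBM`, `S_GSL`, `S_ADM`): `log Q / log R` near an even number.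

Proof. `R`, `G0` as in EEA, `P0 = R ^ (θ / s)`, `P1 = R ^ (2 / (5 s))`, `S = SS k R (R / G0) P0 P1`, where `θ ≤ 1 / 40` is such that
`C₄ (5 θ / 2) * 12 ≤ 1 / 4`, `C₄` the constant of `S_GSL`: `log P0 / log P1 = 5 θ / 2`, `log G0 = 5 ω log H`, so `GS S` is at least
`(φ(k) / k) ((1 + ω) / 2 * log H - 1 - C₄ (5 θ / 2) (1 + 5 ω log H)) ≥ (φ(k) / k) (log H / 2) (1 + ω / 2 - C / log H)`. Conditions: `G0 ≤ P0`
as `5 ω ≤ θ / (2 s)` (`ω s ^ 2 ≤ c₂`), `G0 ^ 10 ≤ R`, `P1 ^ 2 ≤ R`, `log k ≤ log Q ≤ 3 s log H ≤ P0 = exp ((θ / s) log R)`, because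
`s ^ 2 ≤ c₂ / ω ≤ c₂ log H / (C log log H)`, so `(θ / s) log R ≥ (θ / 2) (C log log H / c₂) ^ (1/2) (log H) ^ (1/2)`. The error terms
as in EEA, with `S_SPL` and `S_EBM` (the sum over `i` has at most `2 log R` terms), `exp (- θ log R / (4 s ^ 2)) ≤ H ^ (- θ / (8 s ^ 2)) ≤
H ^ (- 5 ω)` if `c₂ ≤ θ / 40`, and the sum of the trivial parts of `S_SPL` over `g` is at most `4 (L / Δ + 4) (R ^ 2 / G0) (1 + log G0)`. -/
def S_EEB : Prop := ∃ c₂ C H₀ : ℝ, 0 < c₂ ∧ c₂ ≤ 1 / 100 ∧ 1 ≤ C ∧ 3 ≤ H₀ ∧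
  ∀ (H Q ω : ℝ) (k s : ℕ) (l : ℤ), H₀ ≤ H → 1 ≤ k → (k : ℝ) ≤ Q → IsCoprime l (k : ℤ) → 1 ≤ s → 0 < ω →
  ω * s ^ 2 ≤ c₂ → C * Real.log (Real.log H) ≤ ω * Real.log H →
  (2 * s - 1 / 2) * ((1 + ω) / 2 * Real.log H) ≤ Real.log Q →
  Real.log Q ≤ (2 * s + 1 / 2) * ((1 + ω) / 2 * Real.log H) → Concl C H Q ω k l

/-- FIN (250 lines; may assume `S_EEA`, `S_EEB`, `S_MAJ`, and the theorem `fin_ok` of P8H73/GM/All.lean, which is `GM.S_FIN`).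

Proof. `H = y / k`, `A = log x / log H ≥ 4 / 3`, `Q = x / H` (so `k ≤ Q` as `y ≤ x`), `c₂` the smaller and `C₁` the larger constant,
`ω = c₂ / A ^ 2`. (1) If `ω log H < C₁ log log H` then `(log H / log x) ^ 2 = ω / c₂ < C₁ log log H / (c₂ log H)`, and `GM.S_FIN` gives
`N ≤ 2 y / (φ(k) (log H - 2 log log H - C)) ≤ (2 + 8 log log H / log H) y / (φ(k) log H)` for `H` large (the term with `Mk` is `≥ 0`).
(2) Otherwise put `ρ = (1 + ω) / 2 * log H`, `v = log Q / ρ = 2 (A - 1) / (1 + ω) ≥ 1 / 2`, `n = ⌊v + 1 / 2⌋ ≥ 1`. If `n = 2 s - 1` use `S_EEA`, if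
`n = 2 s` use `S_EEB`; `s ≤ v / 2 + 3 / 4 ≤ A`, so `ω s ^ 2 ≤ c₂`. With `Δ = ⌈H ^ (1 - ω)⌉` (`≤ H / 100`, as `H ^ ω` is large) `S_MAJ` gives
`N ≤ (H + H ^ (1 - ω) + 2) / GS S + H ^ (1 - ω) + R / k + 1`, and with `GS S ≥ (φ(k) / k) (log H / 2) (1 + ω / 2 - C₁ / log H)`, `k / φ(k) ≥ 1`,
`H ^ (- ω) ≤ (log H) ^ (- 2)`, `R ≤ H ^ (3 / 5)` this is at most `(2 - ω / 4 + C / log H) (k / φ(k)) H / log H`. -/
def S_FIN : Prop := ∃ c C H₀ : ℝ, 0 < c ∧ 0 < C ∧ 3 ≤ H₀ ∧ ∀ (k : ℕ) (l : ℤ) (x y : ℝ), 1 ≤ k → IsCoprime l (k : ℤ) →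
  y ≤ x → H₀ ≤ y / k → y / k ≤ x ^ (3 / 4 : ℝ) →
  (N x y k l : ℝ) ≤ (2 - c * (Real.log (y / k) / Real.log x) ^ 2 +
    C * Real.log (Real.log (y / k)) / Real.log (y / k)) * y / (Nat.totient k * Real.log (y / k))

/-- COR (80 lines; may assume `S_FIN`): if `log x ≤ c' (log H) ^ (3/2) / (log log H) ^ (1/2)` then
`C log log H / log H ≤ C c' ^ 2 (log H / log x) ^ 2`, take `C c' ^ 2 ≤ c / 4` and `c₁ = c / 2`. -/
def S_COR : Prop := ∃ c c' H₀ : ℝ, 0 < c ∧ 0 < c' ∧ 3 ≤ H₀ ∧ ∀ (k : ℕ) (l : ℤ) (x y : ℝ), 1 ≤ k → IsCoprime l (k : ℤ) →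
  y ≤ x → H₀ ≤ y / k → y / k ≤ x ^ (3 / 4 : ℝ) →
  Real.log x ≤ c' * Real.log (y / k) ^ (3 / 2 : ℝ) / Real.log (Real.log (y / k)) ^ (1 / 2 : ℝ) →
  (N x y k l : ℝ) < (2 - c * (Real.log (y / k) / Real.log x) ^ 2) * y / (Nat.totient k * Real.log (y / k))

end Pool.Agent.P8H73.KV
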